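import Pool.Agent.Helper35.Cq.Defs

/-! # CQ-12: the number of shifted pairs -/

set_option autoImplicit false

open Finset Module
open scoped Classical

namespace Pool.Agent.Helper35.Cq

theorem sum_shifted_le {F : Type*} [Field F] [Fintype F] {V : Type*} [AddCommGroup V]
    [Module F V] {E : Finset V} (hE : Conic F E) :
    ∑ x ∈ E, (shifted F E x).card ≤ Fintype.card F * tri F E := by
  set T : Finset (F × (Σ _ : V, V × V)) := (Finset.univ : Finset F) ×ˢ
    (E.sigma fun u => pairs F E (nb F E u) (nb F E u)) with hT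
  have hcT : T.card = Fintype.card F * tri F E := by
    rw [hT, Finset.card_product, Finset.card_univ, Finset.card_sigma, tri]
  rw [← hcT, ← Finset.card_sigma]
  let G : F × (Σ _ : V, V × V) → (Σ _ : V, V × V) := fun p =>
    ⟨p.1⁻¹ • (p.2.2.1 - p.2.1), (p.2.1, p.2.2.2)⟩
  refine (Finset.card_le_card ?_).trans (Finset.card_image_le (s := T) (f := G))
  rintro ⟨x, y, z⟩ h
  rw [Finset.mem_sigma] at h
  obtain ⟨hx, h⟩ := h
  simp only [shifted, pairs, nb, Finset.mem_filter, Finset.mem_product] at h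
  obtain ⟨⟨⟨⟨hyE, hxy⟩, hzE⟩, hyz⟩, a, ha, hvE, hvz⟩ := h
  rw [Finset.mem_image]
  refine ⟨(a, ⟨y, (y + a • x, z)⟩), ?_, ?_⟩
  · rw [hT, Finset.mem_product]
    refine ⟨Finset.mem_univ _, ?_⟩
    rw [Finset.mem_sigma]
    refine ⟨hyE, ?_⟩
    simp only [pairs, nb, Finset.mem_filter, Finset.mem_product]
    refine ⟨⟨⟨hvE, ?_, -1, by simp, ?_⟩, hzE, hyz⟩, hvz⟩
    · intro c d hcd
      have h1 : (d * a) • x + (c + d) • y = 0 := by
        rw [← hcd]
        module
      obtain ⟨h2, h3⟩ := hxy.1 _ _ h1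
      have hd : d = 0 := by
        rcases mul_eq_zero.mp h2 with h | h
        · exact h
        · exact absurd h ha
      rw [hd, add_zero] at h3
      exact ⟨h3, hd⟩
    · have h1 : y + (-1 : F) • (y + a • x) = (-a) • x := by module
      rw [h1]
      exact hE.smul_mem _ (neg_ne_zero.mpr ha) x hx
  · simp only [G, add_sub_cancel_left, smul_smul, inv_mul_cancel₀ ha, one_smul]

end Pool.Agent.Helper35.Cq
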