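import Pool.Agent.Helper35.Cq.Defs
import Pool.Agent.Helper68.Cq.CardLe
import Pool.Agent.Helper81.Cq.PairsSelf

/-! # CQ-15: the conclusion from a non-hub -/

set_option autoImplicit false

open Finset Module
open scoped Classical

namespace Pool.Agent.Helper35.Cq

theorem rk_pos_of_mem {F : Type*} [Field F] {V : Type*} [AddCommGroup V] [Module F V]
    {Y : Finset V} {y : V} (hy : y ∈ Y) (h0 : y ≠ 0) : 1 ≤ rk F Y := by
  rw [rk, Nat.one_le_iff_ne_zero]
  intro h
  have hfin : Module.Finite F (Submodule.span F (Y : Set V)) :=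
    FiniteDimensional.span_finset F Y
  have h1 := Submodule.finrank_eq_zero.mp h
  have h2 : y ∈ Submodule.span F (Y : Set V) := Submodule.subset_span (by exact_mod_cast hy)
  rw [h1, Submodule.mem_bot] at h2
  exact h0 h2

theorem le_of_nonhub {F : Type*} [Field F] [Fintype F] {V : Type*} [AddCommGroup V]
    [Module F V] {E : Finset V} (hE : Conic F E) (t : ℕ) (hcl : ¬ HasClique F t (E : Set V))
    (l : ℝ) (hl : 0 < l) (K : ℕ) (hK : 0 < K) (w : V)
    (hD : ((nb F E w).card : ℝ) ≤ K * l)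
    (ht : l ^ 2 / (72 * Fintype.card F) ≤ (pairs F E (nb F E w) (nb F E w)).card) :
    l ≤ 73 * Fintype.card F * (2 ^ (t + 6) * Fintype.card F) * K *
      ((73 * Fintype.card F * (2 ^ (t + 6) * Fintype.card F) * K ^ 2 + 1) ^ t *
        Fintype.card F ^ (2 * t)) := by
  set q : ℕ := Fintype.card F with hq
  have hq0 : 0 < q := Fintype.card_pos
  have hqR : (0 : ℝ) < q := by exact_mod_cast hq0
  have hKR : (0 : ℝ) < K := by exact_mod_cast hK
  have h2t : (0 : ℝ) < 2 ^ (t + 6) := by positivity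
  set D := nb F E w with hDdef
  have hDE : D ⊆ E := Finset.filter_subset _ _
  set c : ℝ := 73 * q * (2 ^ (t + 6) * q) * K with hc
  have hc0 : 0 < c := by positivity
  set Λ : ℝ := l / c with hΛ
  have hΛ0 : 0 < Λ := div_pos hl hc0
  have hlc : l = Λ * c := by rw [hΛ]; field_simp
  -- there is a dense subset
  obtain ⟨Y, hYD, hY⟩ : ∃ Y ⊆ D, Λ * rk F Y < (Y.card : ℝ) := by
    by_contra hcon
    push Not at hcon
    have h1 := card_pairs_self_le hE t hcl D Λ (fun x hx => hE.ne_zero x (hDE hx)) hcon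
    have h2 : l ^ 2 / (72 * q) ≤ 2 ^ (t + 6) * q * Λ * (K * l) :=
      ht.trans (h1.trans (mul_le_mul_of_nonneg_left hD (by positivity)))
    rw [div_le_iff₀ (by positivity)] at h2
    have h3 : 2 ^ (t + 6) * q * Λ * (K * l) * (72 * q) = 72 / 73 * (Λ * c) * l := by
      rw [hc]; ring
    rw [h3, ← hlc] at h2
    nlinarith [mul_pos hl hl]
  have hYE : Y ⊆ E := hYD.trans hDE
  have hYpos : 0 < Y.card := by
    have : (0 : ℝ) < Y.card := lt_of_le_of_lt (by positivity) hY
    exact_mod_cast this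
  obtain ⟨y, hy⟩ := Finset.card_pos.mp hYpos
  have hrk1 : 1 ≤ rk F Y := rk_pos_of_mem hy (hE.ne_zero y (hYE hy))
  have hrk1R : (1 : ℝ) ≤ rk F Y := by exact_mod_cast hrk1
  -- its rank is bounded
  have hcard : (Y.card : ℝ) ≤ K * l := le_trans (by exact_mod_cast Finset.card_le_card hYD) hD
  have hrk : rk F Y ≤ 73 * q * (2 ^ (t + 6) * q) * K ^ 2 := by
    have h1 : Λ * rk F Y < Λ * (c * K) := by
      calc Λ * rk F Y < Y.card := hY
        _ ≤ K * l := hcard
        _ = Λ * (c * K) := by rw [hlc]; ring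
    have h2 : (rk F Y : ℝ) < c * K := lt_of_mul_lt_mul_left h1 hΛ0.le
    have h3 : (rk F Y : ℝ) < ((73 * q * (2 ^ (t + 6) * q) * K ^ 2 : ℕ) : ℝ) := by
      refine h2.trans_eq ?_
      rw [hc]; push_cast; ring
    exact (by exact_mod_cast h3 : rk F Y < 73 * q * (2 ^ (t + 6) * q) * K ^ 2).le
  have h4 := card_le_of_rk_le t hcl Y hYE _ hrk
  have h5 : (Y.card : ℝ) ≤ (73 * q * (2 ^ (t + 6) * q) * K ^ 2 + 1) ^ t * q ^ (2 * t) := by
    exact_mod_cast h4
  have h6 : Λ ≤ Y.card := by nlinarith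
  rw [hlc, mul_comm Λ c]
  exact mul_le_mul_of_nonneg_left (h6.trans h5) hc0.le

end Pool.Agent.Helper35.Cq
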