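import Pool.Agent.Helper91.Cq.TriGe
import Pool.Agent.Helper91.Cq.Nonhub
import Pool.Agent.Helper70.Cq.Nonhub

/-! # CQ-16: density of cones without clique minors -/

set_option autoImplicit false

open Finset Module
open scoped Classical

namespace Pool.Agent.Helper35.Cq

theorem hasClique_mono {F : Type*} [Field F] {V : Type*} [AddCommGroup V] [Module F V] {t : ℕ}
    {E E' : Set V} (h : E ⊆ E') (hc : HasClique F t E) : HasClique F t E' := by
  obtain ⟨C, hC, v, h1, h2⟩ := hc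
  refine ⟨C, hC.trans h, v, h1, fun i j hij => ?_⟩
  obtain ⟨e, he, c, hc⟩ := h2 i j hij
  exact ⟨e, h he, c, hc⟩

theorem rk_le_card {F : Type*} [Field F] {V : Type*} [AddCommGroup V] [Module F V]
    (Y : Finset V) : rk F Y ≤ Y.card := finrank_span_finset_le_card Y

/-- closed subset of a cone -/
theorem exists_closure {F : Type*} [Field F] {V : Type*} [AddCommGroup V] [Module F V]
    {E : Finset V} (hE : Conic F E) (Y : Finset V) (hY : Y ⊆ E) :
    ∃ Y' ⊆ E, Y ⊆ Y' ∧ Conic F Y' ∧ rk F Y' = rk F Y := by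
  refine ⟨E.filter fun x => x ∈ Submodule.span F (Y : Set V), Finset.filter_subset _ _, ?_, ?_, ?_⟩
  · intro y hy
    exact Finset.mem_filter.mpr ⟨hY hy, Submodule.subset_span (by exact_mod_cast hy)⟩
  · refine ⟨fun x hx => hE.ne_zero x (Finset.mem_filter.mp hx).1, fun c hc x hx => ?_⟩
    obtain ⟨h1, h2⟩ := Finset.mem_filter.mp hx
    exact Finset.mem_filter.mpr ⟨hE.smul_mem c hc x h1, Submodule.smul_mem _ c h2⟩
  · have h1 : Submodule.span F ((E.filter fun x => x ∈ Submodule.span F (Y : Set V) :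
        Finset V) : Set V) = Submodule.span F (Y : Set V) := by
      apply le_antisymm
      · rw [Submodule.span_le]
        intro x hx
        exact (Finset.mem_filter.mp (by exact_mod_cast hx)).2
      · apply Submodule.span_mono
        intro y hy
        have hy' : y ∈ Y := by exact_mod_cast hy
        exact_mod_cast Finset.mem_filter.mpr ⟨hY hy', Submodule.subset_span hy⟩
    rw [rk, rk, h1]

/-- a maximum of ratios over a bounded set of pairs of natural numbers -/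
theorem exists_max_ratio (S : Set (ℕ × ℕ)) (hne : S.Nonempty) (B : ℕ)
    (hB : ∀ p ∈ S, p.1 ≤ B ∧ p.2 ≤ B) (hpos : ∀ p ∈ S, 1 ≤ p.2) :
    ∃ p0 ∈ S, ∀ p ∈ S, (p.1 : ℝ) ≤ (p0.1 : ℝ) / p0.2 * p.2 := by
  have hfin : S.Finite := by
    apply (Set.finite_Iic ((B, B) : ℕ × ℕ)).subset
    intro p hp
    exact Prod.le_def.mpr (hB p hp)
  obtain ⟨p0, hp0, hmax⟩ := Set.exists_max_image S (fun p => (p.1 : ℝ) / p.2) hfin hne
  refine ⟨p0, hp0, fun p hp => ?_⟩
  have h1 := hmax p hp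
  have h2 : (0 : ℝ) < p.2 := by exact_mod_cast hpos p hp
  rwa [div_le_iff₀ h2] at h1

theorem density.{u} {F : Type*} [Field F] [Fintype F] (t : ℕ) {V : Type u} [AddCommGroup V]
    [Module F V] {E : Finset V} (hE : Conic F E) (hcl : ¬ HasClique F t (E : Set V)) :
    E.card ≤ Fintype.card F ^ (7 * t ^ 2 + 76 * t + 42) * rk F E := by
  rcases E.eq_empty_or_nonempty with rfl | hne
  · simp
  set q : ℕ := Fintype.card F with hq
  have hq2 : 2 ≤ q := Fintype.one_lt_card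
  have hq2R : (2 : ℝ) ≤ q := by exact_mod_cast hq2
  set n := E.card with hn
  -- the class of cones
  let U : ∀ (W : Type u) [AddCommGroup W] [Module F W], Finset W → Prop :=
    fun W _ _ X => Conic F X ∧ ¬ HasClique F t (X : Set W) ∧ X.Nonempty ∧ X.card ≤ n
  have hUrk : ∀ (W : Type u) [AddCommGroup W] [Module F W] (X : Finset W), U W X →
      1 ≤ rk F X ∧ rk F X ≤ n := by
    intro W _ _ X hX
    obtain ⟨h1, h2, ⟨x, hx⟩, h4⟩ := hX
    exact ⟨rk_pos_of_mem hx (h1.ne_zero x hx), (rk_le_card X).trans h4⟩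
  have hUE : U V E := ⟨hE, hcl, hne, le_refl _⟩
  -- maximal density
  obtain ⟨p1, ⟨W1, i1, j1, E1, hU1, hp11, hp12⟩, hmax1⟩ := exists_max_ratio
    {p | ∃ (W : Type u) (_ : AddCommGroup W) (_ : Module F W) (X : Finset W), U W X ∧
      X.card = p.1 ∧ rk F X = p.2} ⟨(n, rk F E), V, _, _, E, hUE, rfl, rfl⟩ n
    (by
      rintro p ⟨W, _, _, X, hX, h1, h2⟩
      exact ⟨h1 ▸ hX.2.2.2, h2 ▸ (hUrk W X hX).2⟩)
    (by
      rintro p ⟨W, _, _, X, hX, h1, h2⟩
      exact h2 ▸ (hUrk W X hX).1)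
  set l : ℝ := (p1.1 : ℝ) / p1.2 with hl
  have hmaxl : ∀ (W : Type u) [AddCommGroup W] [Module F W] (X : Finset W), Conic F X →
      ¬ HasClique F t (X : Set W) → X.card ≤ n → (X.card : ℝ) ≤ l * rk F X := by
    intro W _ _ X h1 h2 h3
    rcases X.eq_empty_or_nonempty with rfl | hX
    · rw [Finset.card_empty]
      push_cast
      positivity
    · exact hmax1 (X.card, rk F X) ⟨W, _, _, X, ⟨h1, h2, hX, h3⟩, rfl, rfl⟩
  have hr1 := (hUrk W1 E1 hU1).1
  have hr1R : (1 : ℝ) ≤ rk F E1 := by exact_mod_cast hr1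
  have hE1l : (E1.card : ℝ) = l * rk F E1 := by
    rw [hl, hp11, hp12]
    have : (p1.2 : ℝ) ≠ 0 := by
      rw [← hp12]; positivity
    field_simp
  -- it suffices to bound l
  suffices hlM : l ≤ (q : ℝ) ^ (7 * t ^ 2 + 76 * t + 42) by
    have h1 := hmaxl V E hE hcl le_rfl
    have h2 : (E.card : ℝ) ≤ (q : ℝ) ^ (7 * t ^ 2 + 76 * t + 42) * rk F E :=
      h1.trans (mul_le_mul_of_nonneg_right hlM (by positivity))
    exact_mod_cast h2
  set γ : ℝ := 2 ^ (t + 6) * q with hγ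
  have hγ0 : 0 < γ := by positivity
  by_contra hcon
  push Not at hcon
  -- powers
  have h2q : ∀ m : ℕ, (2 : ℝ) ^ m ≤ (q : ℝ) ^ m := fun m => pow_le_pow_left₀ (by norm_num) hq2R m
  have hq1 : (1 : ℝ) ≤ q := by linarith
  have hγq : γ ≤ (q : ℝ) ^ (t + 7) := by
    calc γ = (2 : ℝ) ^ (t + 6) * q := hγ
      _ ≤ (q : ℝ) ^ (t + 6) * q := mul_le_mul_of_nonneg_right (h2q _) (by positivity)
      _ = (q : ℝ) ^ (t + 7) := by rw [← pow_succ]
  have hl8 : 8 * (q : ℝ) ^ 2 * γ ≤ l := by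
    refine le_trans ?_ hcon.le
    calc 8 * (q : ℝ) ^ 2 * γ ≤ (q : ℝ) ^ 3 * (q : ℝ) ^ 2 * (q : ℝ) ^ (t + 7) := by
          have := h2q 3
          norm_num at this
          exact mul_le_mul (mul_le_mul_of_nonneg_right this (by positivity)) hγq hγ0.le
            (by positivity)
      _ = (q : ℝ) ^ (t + 12) := by rw [← pow_add, ← pow_add]; congr 1; ring
      _ ≤ (q : ℝ) ^ (7 * t ^ 2 + 76 * t + 42) := pow_le_pow_right₀ hq1 (by nlinarith)
  have hγ64 : 64 * (q : ℝ) ≤ γ := by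
    rw [hγ]
    apply mul_le_mul_of_nonneg_right _ (by positivity)
    calc (64 : ℝ) = 2 ^ 6 := by norm_num
      _ ≤ 2 ^ (t + 6) := pow_le_pow_right₀ (by norm_num) (by omega)
  have hl0 : 0 < l := lt_of_lt_of_le (by positivity) hl8
  have hl2q : 2 * (q : ℝ) ≤ l := by
    have : (1 : ℝ) ≤ (q : ℝ) ^ 2 := one_le_pow₀ hq1
    nlinarith
  -- maximal number of long pairs
  obtain ⟨p2, ⟨W2, i2, j2, E2, hU2, hp21, hp22⟩, hmax2⟩ := exists_max_ratio
    {p | ∃ (W : Type u) (_ : AddCommGroup W) (_ : Module F W) (X : Finset W), U W X ∧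
      (pairs F X X X).card = p.1 ∧ rk F X = p.2}
    ⟨((pairs F E E E).card, rk F E), V, _, _, E, hUE, rfl, rfl⟩ (n * n)
    (by
      rintro p ⟨W, _, _, X, hX, h1, h2⟩
      refine ⟨h1 ▸ ?_, h2 ▸ ?_⟩
      · refine (Finset.card_filter_le _ _).trans ?_
        rw [Finset.card_product]
        exact Nat.mul_le_mul hX.2.2.2 hX.2.2.2
      · have := (hUrk W X hX).2
        nlinarith [(hUrk W X hX).1])
    (by
      rintro p ⟨W, _, _, X, hX, h1, h2⟩
      exact h2 ▸ (hUrk W X hX).1)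
  set ρ : ℝ := (p2.1 : ℝ) / p2.2 with hρ
  have hmaxρ : ∀ (W : Type u) [AddCommGroup W] [Module F W] (X : Finset W), Conic F X →
      ¬ HasClique F t (X : Set W) → X.card ≤ n → ((pairs F X X X).card : ℝ) ≤ ρ * rk F X := by
    intro W _ _ X h1 h2 h3
    rcases X.eq_empty_or_nonempty with rfl | hX
    · have : pairs F (∅ : Finset W) ∅ ∅ = ∅ := by simp [pairs]
      rw [this, Finset.card_empty]
      push_cast
      positivity
    · exact hmax2 ((pairs F X X X).card, rk F X) ⟨W, _, _, X, ⟨h1, h2, hX, h3⟩, rfl, rfl⟩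
  have hr2 := (hUrk W2 E2 hU2).1
  have hE2ρ : ((pairs F E2 E2 E2).card : ℝ) = ρ * rk F E2 := by
    rw [hρ, hp21, hp22]
    have : (p2.2 : ℝ) ≠ 0 := by
      rw [← hp22]; positivity
    field_simp
  -- degrees in E1
  have hdeg : l * (l - q) ≤ ρ := by
    have h1 : ∀ x ∈ E1, l - q ≤ (nb F E1 x).card := by
      intro x hx
      have e1 := hmaxl _ (con F E1 x) (conic_con hU1.1 hx)
        (fun h => hU1.2.1 (hasClique_con hU1.1 hx t h)) ((card_con_le hU1.1 hx).trans hU1.2.2.2)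
      have e2 : (rk F (con F E1 x) : ℝ) + 1 = rk F E1 := by exact_mod_cast rk_con hU1.1 hx
      have e3 : (E1.card : ℝ) ≤ (con F E1 x).card + q + (nb F E1 x).card := by
        exact_mod_cast card_le_con hU1.1 hx
      rw [hE1l, ← e2] at e3
      linarith
    have h2 : (E1.card : ℝ) * (l - q) ≤ (pairs F E1 E1 E1).card := by
      have h3 : ∑ x ∈ E1, (nb F E1 x).card = (pairs F E1 E1 E1).card := by
        rw [pairs, Finset.card_filter, Finset.sum_product]
        refine Finset.sum_congr rfl (fun x _ => ?_)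
        rw [nb, Finset.card_filter]
      have h4 := Finset.sum_le_sum h1
      rw [Finset.sum_const, nsmul_eq_mul] at h4
      refine h4.trans_eq ?_
      exact_mod_cast h3
    have h5 := h2.trans (hmaxρ W1 E1 hU1.1 hU1.2.1 hU1.2.2.2)
    rw [hE1l] at h5
    nlinarith
  have hρl : l ^ 2 / 2 ≤ ρ := by nlinarith
  -- sets inside E2
  have hY : ∀ Y ⊆ E2, (Y.card : ℝ) ≤ l * rk F Y := by
    intro Y hY
    obtain ⟨Y', h1, h2, h3, h4⟩ := exists_closure hU2.1 Y hY
    have h5 := hmaxl W2 Y' h3 (fun h => hU2.2.1 (hasClique_mono (by exact_mod_cast h1) h))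
      ((Finset.card_le_card h1).trans hU2.2.2.2)
    rw [h4] at h5
    exact le_trans (by exact_mod_cast Finset.card_le_card h2) h5
  have hX : ∀ X ⊆ E2, ((pairs F E2 X X).card : ℝ) ≤ γ * l * X.card := by
    intro X hX
    exact card_pairs_self_le hU2.1 t hU2.2.1 X l (fun x hx => hU2.1.ne_zero x (hX hx))
      (fun Y hYX => hY Y (hYX.trans hX))
  have htri : l ^ 2 * E2.card / (12 * q) ≤ tri F E2 := by
    have h1 := tri_ge hU2.1 ρ hE2ρ (fun x hx => hmaxρ _ (con F E2 x) (conic_con hU2.1 hx)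
      (fun h => hU2.2.1 (hasClique_con hU2.1 hx t h)) ((card_con_le hU2.1 hx).trans hU2.2.2.2))
    have h2 := hX E2 subset_rfl
    have h3 : (0 : ℝ) ≤ E2.card := Nat.cast_nonneg _
    have h4 : (2 * (q : ℝ) ^ 2) * (pairs F E2 E2 E2).card ≤ 2 * (q : ℝ) ^ 2 * (γ * l * E2.card) :=
      mul_le_mul_of_nonneg_left h2 (by positivity)
    have h5 : l ^ 2 / 2 * E2.card ≤ ρ * E2.card := mul_le_mul_of_nonneg_right hρl h3
    have h6 : 8 * (q : ℝ) ^ 2 * γ * (l * E2.card) ≤ l * (l * E2.card) :=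
      mul_le_mul_of_nonneg_right hl8 (mul_nonneg hl0.le h3)
    rw [div_le_iff₀ (by positivity)]
    linarith
  obtain ⟨w, hw, hw1, hw2⟩ := exists_nonhub hU2.1 γ l (24 * q * γ ^ 3) hl0 hγ0 hU2.2.2.1 hX rfl
    htri
  have hfinal := le_of_nonhub hU2.1 t hU2.2.1 l hl0 (24 * q * (2 ^ (t + 6) * q) ^ 3)
    (by positivity) w (by push_cast; exact hw1) hw2
  -- the final computation
  have hKq : (24 : ℝ) * q * γ ^ 3 ≤ (q : ℝ) ^ (3 * t + 27) := by
    calc (24 : ℝ) * q * γ ^ 3 ≤ (q : ℝ) ^ 5 * q * ((q : ℝ) ^ (t + 7)) ^ 3 := by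
          have := h2q 5
          norm_num at this
          refine mul_le_mul (mul_le_mul_of_nonneg_right (by linarith) (by positivity)) ?_
            (by positivity) (by positivity)
          exact pow_le_pow_left₀ hγ0.le hγq 3
      _ = (q : ℝ) ^ (3 * t + 27) := by rw [← pow_mul, ← pow_succ, ← pow_add]; congr 1; ring
  have hK0 : 0 < (24 : ℝ) * q * γ ^ 3 := by positivity
  have hcast : ((24 * q * (2 ^ (t + 6) * q) ^ 3 : ℕ) : ℝ) = 24 * q * γ ^ 3 := by
    rw [hγ]; push_cast; ring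
  rw [hcast] at hfinal
  have hA : 73 * (q : ℝ) * γ * (24 * q * γ ^ 3) ≤ (q : ℝ) ^ (4 * t + 42) := by
    calc 73 * (q : ℝ) * γ * (24 * q * γ ^ 3) ≤
        (q : ℝ) ^ 7 * q * (q : ℝ) ^ (t + 7) * (q : ℝ) ^ (3 * t + 27) := by
          have := h2q 7
          norm_num at this
          refine mul_le_mul (mul_le_mul (mul_le_mul_of_nonneg_right (by linarith) (by positivity))
            hγq hγ0.le (by positivity)) hKq hK0.le (by positivity)
      _ = (q : ℝ) ^ (4 * t + 42) := by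
          rw [← pow_succ, ← pow_add, ← pow_add]; congr 1; ring
  have hB : 73 * (q : ℝ) * γ * (24 * q * γ ^ 3) ^ 2 + 1 ≤ (q : ℝ) ^ (7 * t + 69) := by
    have hone : 1 ≤ (q : ℝ) * (q : ℝ) ^ (t + 7) * ((q : ℝ) ^ (3 * t + 27)) ^ 2 := by
      have a1 : (1 : ℝ) ≤ (q : ℝ) ^ (t + 7) := one_le_pow₀ hq1
      have a2 : (1 : ℝ) ≤ ((q : ℝ) ^ (3 * t + 27)) ^ 2 := one_le_pow₀ (one_le_pow₀ hq1)
      calc (1 : ℝ) = 1 * 1 * 1 := by ring
        _ ≤ _ := mul_le_mul (mul_le_mul hq1 a1 zero_le_one (by positivity)) a2 zero_le_one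
          (by positivity)
    calc 73 * (q : ℝ) * γ * (24 * q * γ ^ 3) ^ 2 + 1 ≤
        73 * (q : ℝ) * (q : ℝ) ^ (t + 7) * ((q : ℝ) ^ (3 * t + 27)) ^ 2 +
          (q : ℝ) * (q : ℝ) ^ (t + 7) * ((q : ℝ) ^ (3 * t + 27)) ^ 2 := by
          refine add_le_add ?_ hone
          refine mul_le_mul (mul_le_mul_of_nonneg_left hγq (by positivity)) ?_ (by positivity)
            (by positivity)
          exact pow_le_pow_left₀ hK0.le hKq 2
      _ = 74 * ((q : ℝ) * (q : ℝ) ^ (t + 7) * ((q : ℝ) ^ (3 * t + 27)) ^ 2) := by ring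
      _ ≤ (q : ℝ) ^ 7 * ((q : ℝ) * (q : ℝ) ^ (t + 7) * ((q : ℝ) ^ (3 * t + 27)) ^ 2) := by
          have := h2q 7
          norm_num at this
          exact mul_le_mul_of_nonneg_right (by linarith) (by positivity)
      _ = (q : ℝ) ^ (7 * t + 69) := by
          rw [← pow_mul, ← pow_succ', ← pow_add, ← pow_add]; congr 1; ring
  have hC : 73 * (q : ℝ) * γ * (24 * q * γ ^ 3) *
      ((73 * (q : ℝ) * γ * (24 * q * γ ^ 3) ^ 2 + 1) ^ t * (q : ℝ) ^ (2 * t)) ≤
      (q : ℝ) ^ (7 * t ^ 2 + 76 * t + 42) := by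
    calc 73 * (q : ℝ) * γ * (24 * q * γ ^ 3) *
      ((73 * (q : ℝ) * γ * (24 * q * γ ^ 3) ^ 2 + 1) ^ t * (q : ℝ) ^ (2 * t)) ≤
        (q : ℝ) ^ (4 * t + 42) * (((q : ℝ) ^ (7 * t + 69)) ^ t * (q : ℝ) ^ (2 * t)) := by
          refine mul_le_mul hA ?_ (by positivity) (by positivity)
          exact mul_le_mul_of_nonneg_right (pow_le_pow_left₀ (by positivity) hB t) (by positivity)
      _ = (q : ℝ) ^ (7 * t ^ 2 + 75 * t + 42) := by
          rw [← pow_mul, ← pow_add, ← pow_add]; congr 1; ring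
      _ ≤ (q : ℝ) ^ (7 * t ^ 2 + 76 * t + 42) := pow_le_pow_right₀ hq1 (by omega)
  linarith [hfinal.trans hC]

end Pool.Agent.Helper35.Cq
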