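import Pool.Agent.Helper91.Cq.Packing
import Pool.Agent.Helper91.Cq.Density

/-!
# Small cocircuits of matroids without `M(K_t)` minor and without `M*(K_t)` minor

The matroid is given by a matrix `R` (rows indexed by a basis `β`, columns by the other elements
`υ`); its dual is represented by the rows of `R` and the unit vectors of `υ → F`.
-/

set_option autoImplicit false

open Finset Module
open scoped Classical

namespace Pool.Agent.Helper91.Cq

open Pool.Agent.Helper35.Cq

section clique

variable {F : Type*} [Field F] {V : Type*} [AddCommGroup V] [Module F V]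

theorem hasClique_of_cone {t : ℕ} {E E' : Set V}
    (h : ∀ x ∈ E', ∃ y ∈ E, ∃ c : F, c ≠ 0 ∧ x = c • y) (hc : HasClique F t E') :
    HasClique F t E := by
  obtain ⟨C', hC', v, h1, h2⟩ := hc
  set C : Set V := {y | y ∈ E ∧ ∃ x ∈ C', ∃ c : F, c ≠ 0 ∧ x = c • y} with hC
  have hspan : Submodule.span F C = Submodule.span F C' := by
    apply le_antisymm
    · rw [Submodule.span_le]
      rintro y ⟨-, x, hx, c, hc, hxy⟩
      have : y = c⁻¹ • x := by rw [hxy, smul_smul, inv_mul_cancel₀ hc, one_smul]
      rw [this]
      exact Submodule.smul_mem _ _ (Submodule.subset_span hx)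
    · rw [Submodule.span_le]
      intro x hx
      obtain ⟨y, hy, c, hc, hxy⟩ := h x (hC' hx)
      rw [hxy]
      exact Submodule.smul_mem _ _ (Submodule.subset_span ⟨hy, x, hx, c, hc, hxy⟩)
  refine ⟨C, fun y hy => hy.1, v, ?_, ?_⟩
  · rw [hspan]; exact h1
  · intro i j hij
    obtain ⟨e, he, c, hc, hec⟩ := h2 i j hij
    obtain ⟨y, hy, d, hd, hyd⟩ := h e he
    refine ⟨y, hy, d⁻¹ * c, mul_ne_zero (inv_ne_zero hd) hc, ?_⟩
    rw [hspan]
    have : y - (d⁻¹ * c) • (v i - v j) = d⁻¹ • (e - c • (v i - v j)) := by
      rw [hyd, smul_sub d⁻¹, smul_smul, smul_smul, inv_mul_cancel₀ hd, one_smul]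
    rw [this]
    exact Submodule.smul_mem _ _ hec

theorem hasClique_of_map {t : ℕ} {V' : Type*} [AddCommGroup V'] [Module F V'] (π : V →ₗ[F] V')
    (E : Set V) (hker : ∀ x, π x = 0 → x ∈ Submodule.span F {y | y ∈ E ∧ π y = 0})
    (hc : HasClique F t (π '' E)) : HasClique F t E := by
  obtain ⟨C, hC, v, h1, h2⟩ := hc
  rcases Nat.eq_zero_or_pos t with rfl | ht
  · exact ⟨∅, Set.empty_subset _, fun i => i.elim0, fun α _ _ => by ext i; exact i.elim0,
      fun i => i.elim0⟩
  set i0 : Fin t := ⟨0, ht⟩ with hi0
  set C0 : Set V := {x | x ∈ E ∧ (π x ∈ C ∨ π x = 0)} with hC0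
  have hspan : ∀ x, π x ∈ Submodule.span F C ↔ x ∈ Submodule.span F C0 := by
    intro x
    constructor
    · intro hx
      have h3 : Submodule.span F C ≤ (Submodule.span F C0).map π := by
        rw [Submodule.span_le]
        intro c hcC
        obtain ⟨y, hy, hyc⟩ := hC (show c ∈ C from hcC)
        exact ⟨y, Submodule.subset_span ⟨hy, Or.inl (by rw [hyc]; exact hcC)⟩, hyc⟩
      obtain ⟨y, hy, hyx⟩ := h3 hx
      have h4 : x - y ∈ Submodule.span F C0 := by
        refine (Submodule.span_mono ?_) (hker (x - y) (by rw [map_sub, hyx, sub_self]))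
        rintro z ⟨hz, hz0⟩
        exact ⟨hz, Or.inr hz0⟩
      have := Submodule.add_mem _ h4 hy
      rwa [sub_add_cancel] at this
    · intro hx
      have h3 : Submodule.span F C0 ≤ (Submodule.span F C).comap π := by
        rw [Submodule.span_le]
        rintro z ⟨hz, hz' | hz'⟩
        · exact Submodule.subset_span hz'
        · change π z ∈ Submodule.span F C
          rw [hz']
          exact Submodule.zero_mem _
      exact h3 hx
  -- lift the vectors
  have hlift : ∀ i : Fin t, ∃ u : V, π u - (v i - v i0) ∈ Submodule.span F C := by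
    intro i
    by_cases hi : i = i0
    · refine ⟨0, ?_⟩
      rw [hi, map_zero, sub_self, sub_self]
      exact Submodule.zero_mem _
    · obtain ⟨e, ⟨x, hx, rfl⟩, c, hc, hec⟩ := h2 i i0 hi
      refine ⟨c⁻¹ • x, ?_⟩
      have : π (c⁻¹ • x) - (v i - v i0) = c⁻¹ • (π x - c • (v i - v i0)) := by
        rw [map_smul, smul_sub, smul_smul, inv_mul_cancel₀ hc, one_smul]
      rw [this]
      exact Submodule.smul_mem _ _ hec
  choose u hu using hlift
  refine ⟨C0, fun x hx => hx.1, u, ?_, ?_⟩
  · intro α hα hmem
    apply h1 α hα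
    rw [← hspan, map_sum] at hmem
    have h3 : ∑ i, α i • (π (u i) - (v i - v i0)) ∈ Submodule.span F C :=
      Submodule.sum_mem _ fun i _ => Submodule.smul_mem _ _ (hu i)
    have h4 : ∑ i, α i • v i = ∑ i, π (α i • u i) - ∑ i, α i • (π (u i) - (v i - v i0)) := by
      rw [← Finset.sum_sub_distrib]
      have h5 : ∀ i ∈ (univ : Finset (Fin t)), π (α i • u i) - α i • (π (u i) - (v i - v i0)) =
          α i • v i - α i • v i0 := by
        intro i _
        rw [map_smul]
        module
      rw [Finset.sum_congr rfl h5, Finset.sum_sub_distrib, ← Finset.sum_smul, hα, zero_smul,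
        sub_zero]
    rw [h4]
    exact Submodule.sub_mem _ hmem h3
  · intro i j hij
    obtain ⟨e, ⟨x, hx, rfl⟩, c, hc, hec⟩ := h2 i j hij
    refine ⟨x, hx, c, hc, ?_⟩
    rw [← hspan]
    have h3 : π (x - c • (u i - u j)) = (π x - c • (v i - v j)) -
        c • (π (u i) - (v i - v i0)) + c • (π (u j) - (v j - v i0)) := by
      rw [map_sub, map_smul, map_sub]
      module
    rw [h3]
    exact Submodule.add_mem _ (Submodule.sub_mem _ hec (Submodule.smul_mem _ _ (hu i)))
      (Submodule.smul_mem _ _ (hu j))

end clique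

/-! ## Density and long pairs for arbitrary subsets of a cone -/

section sub

variable {F : Type*} [Field F] [Fintype F] {V : Type*} [AddCommGroup V] [Module F V]
  {E : Finset V}

/-- the constant of the density theorem -/
noncomputable def Lam (F : Type*) [Field F] [Fintype F] (t : ℕ) : ℝ :=
  (Fintype.card F : ℝ) ^ (7 * t ^ 2 + 76 * t + 42)

/-- the constant for long pairs -/
noncomputable def Dee (F : Type*) [Field F] [Fintype F] (t : ℕ) : ℝ :=
  2 ^ (t + 6) * Fintype.card F * Lam F t

theorem sub_density (hE : Conic F E) (t : ℕ) (hcl : ¬ HasClique F t (E : Set V))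
    (Y : Finset V) (hY : Y ⊆ E) : (Y.card : ℝ) ≤ Lam F t * rk F Y := by
  obtain ⟨Y', h1, h2, h3, h4⟩ := exists_closure hE Y hY
  have h5 := density t h3 (fun h => hcl (hasClique_mono (by exact_mod_cast h1) h))
  have h6 : (Y.card : ℝ) ≤ Y'.card := by exact_mod_cast Finset.card_le_card h2
  rw [← h4]
  refine h6.trans ?_
  rw [Lam]
  exact_mod_cast h5

theorem sub_pairs (hE : Conic F E) (t : ℕ) (hcl : ¬ HasClique F t (E : Set V))
    (T : Finset V) (hT : T ⊆ E) : ((pairs F E T T).card : ℝ) ≤ Dee F t * T.card :=
  card_pairs_self_le hE t hcl T (Lam F t) (fun x hx => hE.ne_zero x (hT hx))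
    (fun Y hY => sub_density hE t hcl Y (hY.trans hT))

end sub

/-! ## The matroid of a matrix and its dual -/

section matrix

variable {F : Type*} [Field F] [Fintype F] {β υ : Type*} [Fintype β] [Fintype υ]

/-- the vectors representing the dual matroid: rows and unit vectors -/
def rowSet (R : β → υ → F) : Set (υ → F) := {w | (∃ b, w = R b) ∨ ∃ y, w = Pi.single y 1}

/-- restriction to a set of coordinates as a linear map -/
noncomputable def restrL (X : Finset υ) : (υ → F) →ₗ[F] (υ → F) where
  toFun := restr X
  map_add' u v := by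
    funext y
    simp only [restr_apply, Pi.add_apply]
    split_ifs <;> simp
  map_smul' c v := by
    funext y
    simp only [restr_apply, Pi.smul_apply, smul_eq_mul, RingHom.id_apply]
    split_ifs <;> simp

theorem restrL_apply (X : Finset υ) (u : υ → F) : restrL X u = restr X u := rfl

theorem restr_smul (X : Finset υ) (c : F) (u : υ → F) : restr X (c • u) = c • restr X u :=
  (restrL X).map_smul c u

theorem restr_single {X : Finset υ} {y : υ} (hy : y ∈ X) (c : F) :
    restr X (Pi.single y c) = Pi.single y c := by
  funext z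
  rw [restr_apply]
  by_cases hz : z ∈ X
  · rw [if_pos hz]
  · rw [if_neg hz, Pi.single_eq_of_ne (fun h => hz (by rw [h]; exact hy))]

theorem restr_single_notMem {X : Finset υ} {y : υ} (hy : y ∉ X) (c : F) :
    restr X (Pi.single y c) = 0 := by
  funext z
  rw [restr_apply]
  by_cases hz : z ∈ X
  · rw [if_pos hz, Pi.single_eq_of_ne (fun h => hy (by rw [← h]; exact hz))]
    rfl
  · rw [if_neg hz]
    rfl

/-- cone over the traces on `X` -/
noncomputable def coneX (R : β → υ → F) (X : Finset υ) : Finset (υ → F) :=
  univ.filter fun u => u ≠ 0 ∧ ∃ w ∈ rowSet R, ∃ c : F, u = c • restr X w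

theorem conic_coneX (R : β → υ → F) (X : Finset υ) : Conic F (coneX R X) := by
  refine ⟨fun x hx => (Finset.mem_filter.mp hx).2.1, fun c hc x hx => ?_⟩
  obtain ⟨-, h1, w, hw, d, hd⟩ := Finset.mem_filter.mp hx
  refine Finset.mem_filter.mpr ⟨Finset.mem_univ _, smul_ne_zero hc h1, w, hw, c * d, ?_⟩
  rw [hd, smul_smul]

theorem not_hasClique_coneX (R : β → υ → F) (X : Finset υ) (t : ℕ)
    (h : ¬ HasClique F t (rowSet R)) : ¬ HasClique F t (coneX R X : Set (υ → F)) := by
  intro hc
  apply h
  apply hasClique_of_map (restrL X) (rowSet R)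
  · intro x hx
    have h1 : x = ∑ y ∈ Xᶜ, x y • (Pi.single y (1 : F) : υ → F) := by
      funext z
      rw [Finset.sum_apply]
      by_cases hz : z ∈ X
      · have h2 := congrFun hx z
        rw [restrL_apply, restr_apply, if_pos hz] at h2
        rw [h2]
        symm
        apply Finset.sum_eq_zero
        intro y hy
        rw [Pi.smul_apply, Pi.single_eq_of_ne, smul_zero]
        rintro rfl
        exact (Finset.mem_compl.mp hy) hz
      · rw [Finset.sum_eq_single_of_mem z (Finset.mem_compl.mpr hz)]
        · simp
        · intro y _ hyz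
          rw [Pi.smul_apply, Pi.single_eq_of_ne (Ne.symm hyz), smul_zero]
    rw [h1]
    refine Submodule.sum_mem _ fun y hy => Submodule.smul_mem _ _ (Submodule.subset_span ?_)
    exact ⟨Or.inr ⟨y, rfl⟩, restr_single_notMem (Finset.mem_compl.mp hy) 1⟩
  · apply hasClique_of_cone _ hc
    intro x hx
    obtain ⟨-, h1, w, hw, c, hcx⟩ := Finset.mem_filter.mp (by exact_mod_cast hx)
    refine ⟨restr X w, ⟨w, hw, rfl⟩, c, ?_, hcx⟩
    rintro rfl
    exact h1 (by rw [hcx, zero_smul])

theorem rk_coneX (R : β → υ → F) (X : Finset υ) : rk F (coneX R X) ≤ X.card := by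
  have h1 : Submodule.span F (coneX R X : Set (υ → F)) ≤
      Submodule.span F ((X.image fun y => (Pi.single y (1 : F) : υ → F) : Finset (υ → F)) :
        Set (υ → F)) := by
    rw [Submodule.span_le]
    intro x hx
    obtain ⟨-, h1, w, hw, c, hcx⟩ := Finset.mem_filter.mp (by exact_mod_cast hx)
    rw [hcx]
    apply Submodule.smul_mem
    have h2 : restr X w = ∑ y ∈ X, w y • (Pi.single y (1 : F) : υ → F) := by
      funext z
      rw [Finset.sum_apply, restr_apply]
      by_cases hz : z ∈ X
      · rw [if_pos hz, Finset.sum_eq_single_of_mem z hz]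
        · simp
        · intro y _ hyz
          rw [Pi.smul_apply, Pi.single_eq_of_ne (Ne.symm hyz), smul_zero]
      · rw [if_neg hz]
        symm
        apply Finset.sum_eq_zero
        intro y hy
        rw [Pi.smul_apply, Pi.single_eq_of_ne, smul_zero]
        rintro rfl
        exact hz hy
    rw [h2]
    refine Submodule.sum_mem _ fun y hy => Submodule.smul_mem _ _ (Submodule.subset_span ?_)
    exact_mod_cast Finset.mem_image_of_mem _ hy
  rw [rk]
  refine (Submodule.finrank_mono h1).trans ?_
  exact (finrank_span_finset_le_card _).trans Finset.card_image_le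

/-- the scaled rows -/
noncomputable def scaled (R : β → υ → F) : β × Fˣ → υ → F := fun p => (p.2 : F) • R p.1

theorem traces_subset (R : β → υ → F) (X : Finset υ) : traces (scaled R) X ⊆ coneX R X := by
  intro u hu
  rw [traces, Finset.mem_erase, Finset.mem_image] at hu
  obtain ⟨h1, p, -, h2⟩ := hu
  refine Finset.mem_filter.mpr ⟨Finset.mem_univ _, h1, R p.1, Or.inl ⟨p.1, rfl⟩, p.2, ?_⟩
  rw [← h2, tr, scaled, restr_smul]

theorem long_of_adj (R : β → υ → F) (X : Finset υ) {u v : υ → F} (hu : restr X u = u)
    (hv : restr X v = v) (h : Adj X u v) : Long F (coneX R X) u v := by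
  obtain ⟨a, ha, hne, heq, h0⟩ := h
  have hsub : u + (-1 : F) • v = (u a - v a) • restr X (Pi.single a (1 : F)) := by
    rw [restr_single ha]
    funext y
    by_cases hya : y = a
    · subst hya
      simp [sub_eq_add_neg]
    · have h1 : u y = v y := by
        by_cases hy : y ∈ X
        · have := congrFun heq y
          simpa [restr_apply, hy, hya] using this
        · rw [← hu, ← hv, restr_apply, restr_apply, if_neg hy, if_neg hy]
      simp [hya, h1]
  have hna : u a - v a ≠ 0 := by
    intro h1
    rw [h1, zero_smul] at hsub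
    apply hne
    have : u = v := by
      have h2 : u - v = 0 := by rw [← hsub]; module
      exact sub_eq_zero.mp h2
    exact this
  refine ⟨?_, -1, by simp, ?_⟩
  · intro c d hcd
    have h1 : (c + d) • restr (X.erase a) u = 0 := by
      have h2 := congrArg (restrL (F := F) (X.erase a)) hcd
      rw [map_add, map_smul, map_smul, map_zero, restrL_apply, restrL_apply, ← heq,
        ← add_smul] at h2
      exact h2
    have h2 : c + d = 0 := by
      rcases smul_eq_zero.mp h1 with h | h
      · exact h
      · exact absurd h h0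
    have hd : d = -c := by linear_combination h2
    have h3 : c • (u - v) = 0 := by
      rw [hd] at hcd
      rw [← hcd]
      module
    have h4 : c = 0 := by
      rcases smul_eq_zero.mp h3 with h | h
      · exact h
      · exact absurd (sub_eq_zero.mp h) hne
    exact ⟨h4, by rw [hd, h4, neg_zero]⟩
  · refine Finset.mem_filter.mpr ⟨Finset.mem_univ _, ?_, Pi.single a 1, Or.inr ⟨a, rfl⟩,
      u a - v a, hsub⟩
    rw [hsub, restr_single ha]
    intro h1
    have := congrFun h1 a
    rw [Pi.smul_apply, Pi.single_eq_same, smul_eq_mul, mul_one] at this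
    exact hna this

/-- the vectors representing the matroid: columns and unit vectors -/
def colSet (R : β → υ → F) : Set (β → F) := rowSet fun y b => R b y

/-- **Small cocircuit theorem**, matrix form: if all cocircuits have at least `g + 2` elements,
then `g` is bounded. -/
theorem small_cocircuit (R : β → υ → F) [Nonempty β] (t g : ℕ)
    (hcol0 : ∀ y, (fun b => R b y) ≠ 0)
    (hcol : ∀ y y' (c : F), (fun b => R b y) = c • (fun b => R b y') → y = y')
    (h1 : ¬ HasClique F t (colSet R)) (h2 : ¬ HasClique F t (rowSet R))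
    (hw : ∀ x : β → F, x ≠ 0 → g + 2 ≤ (univ.filter fun b => x b ≠ 0).card +
      (univ.filter fun y => ∑ b, x b * R b y ≠ 0).card) :
    (g : ℝ) ≤ 4 * Lam F t ^ 2 * (Dee F t + 1) := by
  set q : ℕ := Fintype.card F with hq
  have hq2 : 2 ≤ q := Fintype.one_lt_card
  have hq2R : (2 : ℝ) ≤ q := by exact_mod_cast hq2
  set Λ := Lam F t with hΛ
  set D := Dee F t with hD
  have hΛ1 : 1 ≤ Λ := by
    rw [hΛ, Lam]
    exact one_le_pow₀ (by linarith)
  have hD0 : 0 ≤ D := by
    rw [hD, Dee]
    positivity
  set y := Fintype.card υ with hy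
  set n := Fintype.card β with hn
  have hn1 : 1 ≤ n := Fintype.card_pos
  have hn1R : (1 : ℝ) ≤ n := by exact_mod_cast hn1
  -- weights of single rows and of combinations of two rows
  have hsingle : ∀ b (α : F), α ≠ 0 → g + 1 ≤ (univ.filter fun a => α * R b a ≠ 0).card := by
    intro b α hα
    have h3 := hw (Pi.single b α) (by
      intro h
      have := congrFun h b
      rw [Pi.single_eq_same] at this
      exact hα this)
    have h4 : (univ.filter fun b' => (Pi.single b α : β → F) b' ≠ 0).card ≤ 1 := by
      rw [Finset.card_le_one]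
      intro b1 hb1 b2 hb2
      rw [Finset.mem_filter] at hb1 hb2
      have e1 : b1 = b := by
        by_contra hne
        apply hb1.2
        rw [Pi.single_eq_of_ne hne]
      have e2 : b2 = b := by
        by_contra hne
        apply hb2.2
        rw [Pi.single_eq_of_ne hne]
      rw [e1, e2]
    have h5 : (univ.filter fun a => ∑ b', (Pi.single b α : β → F) b' * R b' a ≠ 0) =
        univ.filter fun a => α * R b a ≠ 0 := by
      ext a
      rw [Finset.mem_filter, Finset.mem_filter, Finset.sum_eq_single b]
      · rw [Pi.single_eq_same]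
      · intro b' _ hb'
        rw [Pi.single_eq_of_ne hb', zero_mul]
      · intro h; exact absurd (Finset.mem_univ _) h
    rw [h5] at h3
    omega
  have hpair : ∀ b b' (α α' : F), b ≠ b' → α ≠ 0 → α' ≠ 0 →
      g ≤ (univ.filter fun a => α * R b a ≠ α' * R b' a).card := by
    intro b b' α α' hbb hα hα'
    have h3 := hw (Pi.single b α - Pi.single b' α') (by
      intro h
      have := congrFun h b
      rw [Pi.sub_apply, Pi.single_eq_same, Pi.single_eq_of_ne hbb, sub_zero] at this
      exact hα this)
    have h4 : (univ.filter fun b1 => (Pi.single b α - Pi.single b' α' : β → F) b1 ≠ 0).card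
        ≤ 2 := by
      refine (Finset.card_le_card (t := {b, b'}) ?_).trans Finset.card_le_two
      intro b1 hb1
      rw [Finset.mem_filter] at hb1
      rw [Finset.mem_insert, Finset.mem_singleton]
      by_contra hne
      push Not at hne
      apply hb1.2
      rw [Pi.sub_apply, Pi.single_eq_of_ne hne.1, Pi.single_eq_of_ne hne.2, sub_zero]
    have h5 : (univ.filter fun a =>
        ∑ b1, (Pi.single b α - Pi.single b' α' : β → F) b1 * R b1 a ≠ 0) =
        univ.filter fun a => α * R b a ≠ α' * R b' a := by
      ext a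
      rw [Finset.mem_filter, Finset.mem_filter]
      have h6 : ∑ b1, (Pi.single b α - Pi.single b' α' : β → F) b1 * R b1 a =
          α * R b a - α' * R b' a := by
        have h7 : ∀ b1 ∈ (univ : Finset β),
            (Pi.single b α - Pi.single b' α' : β → F) b1 * R b1 a =
            (Pi.single b α : β → F) b1 * R b1 a - (Pi.single b' α' : β → F) b1 * R b1 a := by
          intro b1 _
          rw [Pi.sub_apply, sub_mul]
        rw [Finset.sum_congr rfl h7, Finset.sum_sub_distrib, Finset.sum_eq_single b,
          Finset.sum_eq_single b', Pi.single_eq_same, Pi.single_eq_same]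
        · intro b1 _ hb1
          rw [Pi.single_eq_of_ne hb1, zero_mul]
        · intro h; exact absurd (Finset.mem_univ _) h
        · intro b1 _ hb1
          rw [Pi.single_eq_of_ne hb1, zero_mul]
        · intro h; exact absurd (Finset.mem_univ _) h
      rw [h6, sub_ne_zero]
    rw [h5] at h3
    omega
  by_contra hcon
  push Not at hcon
  have hg0 : (0 : ℝ) < g := lt_of_le_of_lt (by positivity) hcon
  -- the number of columns is positive
  have hy1 : 1 ≤ y := by
    obtain ⟨b⟩ := (inferInstance : Nonempty β)
    have := hsingle b 1 one_ne_zero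
    have h3 := (Finset.card_filter_le (univ : Finset υ) fun a => (1 : F) * R b a ≠ 0)
    rw [Finset.card_univ] at h3
    omega
  -- primal density
  have hunits : (Fintype.card Fˣ : ℝ) = q - 1 := by
    rw [Fintype.card_units, Nat.cast_sub (by omega)]
    simp [hq]
  have hprimal : ((q : ℝ) - 1) * y ≤ Λ * n := by
    have h3 := density t (conic_coneX (fun (y : υ) (b : β) => R b y) (univ : Finset β))
      (not_hasClique_coneX _ _ t h1)
    have h4 : rk F (coneX (fun (y : υ) (b : β) => R b y) (univ : Finset β)) ≤ n :=
      (rk_coneX _ _).trans (by rw [Finset.card_univ])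
    have h5 : Fintype.card (υ × Fˣ) ≤
        (coneX (fun (y : υ) (b : β) => R b y) (univ : Finset β)).card := by
      rw [← Finset.card_univ]
      apply Finset.card_le_card_of_injOn (fun p => (p.2 : F) • (fun b => R b p.1))
      · intro p _
        rw [Finset.mem_coe, coneX, Finset.mem_filter]
        have hres : restr univ (fun b => R b p.1) = fun b => R b p.1 := by
          funext b
          rw [restr_apply, if_pos (Finset.mem_univ _)]
        refine ⟨Finset.mem_univ _, smul_ne_zero (Units.ne_zero _) (hcol0 _), (fun b => R b p.1),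
          Or.inl ⟨p.1, rfl⟩, (p.2 : F), ?_⟩
        rw [hres]
      · rintro ⟨y1, α1⟩ _ ⟨y2, α2⟩ _ h
        change (α1 : F) • (fun b => R b y1) = (α2 : F) • (fun b => R b y2) at h
        have e1 : y1 = y2 := by
          apply hcol y1 y2 ((α1 : F)⁻¹ * α2)
          rw [mul_smul, ← h, smul_smul, inv_mul_cancel₀ (Units.ne_zero _), one_smul]
        subst e1
        have e2 : ((α1 : F) - α2) • (fun b => R b y1) = 0 := by
          rw [sub_smul, h, sub_self]
        have e3 : (α1 : F) = α2 := by
          rcases smul_eq_zero.mp e2 with h' | h'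
          · exact sub_eq_zero.mp h'
          · exact absurd h' (hcol0 y1)
        rw [Units.ext e3]
    have h6 : ((coneX (fun (y : υ) (b : β) => R b y) (univ : Finset β)).card : ℝ) ≤ Λ * n := by
      calc ((coneX (fun (y : υ) (b : β) => R b y) (univ : Finset β)).card : ℝ) ≤
          Λ * rk F (coneX (fun (y : υ) (b : β) => R b y) (univ : Finset β)) := by
            rw [hΛ, Lam]; exact_mod_cast h3
        _ ≤ Λ * n := mul_le_mul_of_nonneg_left (by exact_mod_cast h4) (by positivity)
    have h7 : ((Fintype.card (υ × Fˣ) : ℕ) : ℝ) = y * (q - 1) := by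
      rw [Fintype.card_prod, Nat.cast_mul, hunits]
    have h8 : ((Fintype.card (υ × Fˣ) : ℕ) : ℝ) ≤
        (coneX (fun (y : υ) (b : β) => R b y) (univ : Finset β)).card := by exact_mod_cast h5
    rw [h7] at h8
    linarith
  -- the packing lemma
  set k : ℕ := ⌊2 * (D + 1) * y / g⌋₊ with hk
  have hyR : (1 : ℝ) ≤ y := by exact_mod_cast hy1
  have hkle : (k : ℝ) ≤ 2 * (D + 1) * y / g := Nat.floor_le (by positivity)
  have hklt : 2 * (D + 1) * y / g < k + 1 := Nat.lt_floor_add_one _
  have h2D : 2 * (D + 1) ≤ (g : ℝ) := by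
    have : 1 ≤ Λ ^ 2 := one_le_pow₀ hΛ1
    nlinarith
  have hky : k ≤ y := by
    have h3 : (k : ℝ) ≤ y := by
      refine hkle.trans ?_
      rw [div_le_iff₀ hg0]
      nlinarith
    exact_mod_cast h3
  have hscale : ∀ p (a : υ), scaled R p a = (p.2 : F) * R p.1 a := fun p a => rfl
  have hpack := packing (scaled R) g k D Λ hD0 hky
    (by
      rintro X ⟨b, α⟩ ⟨b', α'⟩ hne htr h0
      by_cases hbb : b = b'
      · exfalso
        subst hbb
        apply h0
        have hαα : (α : F) ≠ α' := fun h => hne (by rw [Units.ext h])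
        funext z
        by_cases hz : z ∈ X
        · have := (tr_eq_iff (scaled R) X (b, α) (b, α')).mp htr z hz
          rw [hscale, hscale] at this
          have h4 : ((α : F) - α') * R b z = 0 := by
            rw [sub_mul]
            exact sub_eq_zero.mpr this
          have h5 : R b z = 0 := by
            rcases mul_eq_zero.mp h4 with h | h
            · exact absurd (sub_eq_zero.mp h) hαα
            · exact h
          rw [tr, restr_apply, if_pos hz, hscale]
          simp [h5]
        · rw [tr, restr_apply, if_neg hz]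
          rfl
      · exact hpair b b' α α' hbb (Units.ne_zero _) (Units.ne_zero _))
    (by
      rintro ⟨b, α⟩
      exact (Nat.le_succ g).trans (hsingle b α (Units.ne_zero _)))
    (by
      intro X
      have h3 := sub_density (conic_coneX R X) t (not_hasClique_coneX R X t h2) _
        (traces_subset R X)
      have h4 : rk F (traces (scaled R) X) ≤ X.card := by
        refine le_trans ?_ (rk_coneX R X)
        have hfin : Module.Finite F (Submodule.span F (coneX R X : Set (υ → F))) :=
          FiniteDimensional.span_finset F _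
        exact Submodule.finrank_mono (Submodule.span_mono (by exact_mod_cast traces_subset R X))
      exact h3.trans (mul_le_mul_of_nonneg_left (by exact_mod_cast h4) (by positivity)))
    (by
      intro X T hT
      refine le_trans ?_ (sub_pairs (conic_coneX R X) t (not_hasClique_coneX R X t h2) T
        (hT.trans (traces_subset R X)))
      have h3 : ((T ×ˢ T).filter fun p => Adj X p.1 p.2) ⊆ pairs F (coneX R X) T T := by
        intro p hp
        rw [Finset.mem_filter, Finset.mem_product] at hp
        rw [pairs, Finset.mem_filter, Finset.mem_product]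
        have hres : ∀ u ∈ T, restr X u = u := by
          intro u hu
          have h5 := hT hu
          rw [traces, Finset.mem_erase, Finset.mem_image] at h5
          obtain ⟨_, i, -, rfl⟩ := h5
          exact restr_restr subset_rfl _
        exact ⟨hp.1, long_of_adj R X (hres _ hp.1.1) (hres _ hp.1.2) hp.2⟩
      exact_mod_cast Finset.card_le_card h3)
  -- final computation
  have hκ : (Fintype.card (β × Fˣ) : ℝ) = n * (q - 1) := by
    rw [Fintype.card_prod, Nat.cast_mul, hunits]
  rw [hκ, ← hy] at hpack
  set N : ℝ := n * (q - 1) with hN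
  have hN0 : 0 < N := mul_pos (by linarith) (by linarith)
  have hk1 : (0 : ℝ) < k + 1 := by positivity
  have e1 : (y : ℝ) * (D + 1) < g * (k + 1) / 2 := by
    rw [div_lt_iff₀ hg0] at hklt
    linarith
  have e2 : (g : ℝ) * (N - Λ * k) * (k + 1) < g * (k + 1) / 2 * N := by
    refine lt_of_le_of_lt hpack ?_
    have := mul_lt_mul_of_pos_right e1 hN0
    linarith
  have e3 : N - Λ * k < N / 2 := by
    have h3 : (g : ℝ) * (k + 1) * (N - Λ * k) < g * (k + 1) * (N / 2) := by linarith
    exact lt_of_mul_lt_mul_left h3 (by positivity)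
  have e4 : N < 2 * Λ * (2 * (D + 1) * y / g) := by
    have : Λ * k ≤ Λ * (2 * (D + 1) * y / g) := mul_le_mul_of_nonneg_left hkle (by positivity)
    linarith
  have e5 : N * g < 4 * Λ * (D + 1) * y := by
    have h3 : 2 * Λ * (2 * (D + 1) * y / g) = (4 * Λ * (D + 1) * y) / g := by ring
    rw [h3, lt_div_iff₀ hg0] at e4
    exact e4
  have e6 : N * g * (q - 1) < 4 * Λ ^ 2 * (D + 1) * n := by
    calc N * g * (q - 1) < 4 * Λ * (D + 1) * y * (q - 1) :=
          mul_lt_mul_of_pos_right e5 (by linarith)
      _ = 4 * Λ * (D + 1) * ((q - 1) * y) := by ring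
      _ ≤ 4 * Λ * (D + 1) * (Λ * n) := mul_le_mul_of_nonneg_left hprimal (by positivity)
      _ = 4 * Λ ^ 2 * (D + 1) * n := by ring
  have e7 : (n : ℝ) * g ≤ N * g * (q - 1) := by
    rw [hN]
    have : 1 ≤ ((q : ℝ) - 1) * (q - 1) := by nlinarith
    calc (n : ℝ) * g = n * g * 1 := by ring
      _ ≤ n * g * (((q : ℝ) - 1) * (q - 1)) := mul_le_mul_of_nonneg_left this (by positivity)
      _ = _ := by ring
  have e8 : (n : ℝ) * g < n * (4 * Λ ^ 2 * (D + 1)) := by linarith
  have e9 : (g : ℝ) < 4 * Λ ^ 2 * (D + 1) := lt_of_mul_lt_mul_left e8 (by positivity)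
  linarith

end matrix

end Pool.Agent.Helper91.Cq
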