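import Pool.Agent.Helper91.Cq.TwoSided

/-!
# Minors isomorphic to cycle matroids of graphs, and dual pairs of graphs
-/

set_option autoImplicit false

open Finset Module
open scoped Classical

namespace Pool.Agent.Helper91.Cq

open Pool.Agent.Helper35.Cq

section

variable {ν ε ι : Type*}

/-- the vector of the edge `j` with ends `s j` and `t j`: `+1` at `s j`, `-1` at `t j` -/
noncomputable def inc (F : Type*) [Field F] (s t : ε → ν) (j : ε) : ν → F :=
  Pi.single (s j) 1 - Pi.single (t j) 1

/-- The matroid on `ι` represented by the vectors `v e` has a minor isomorphic to the cycle matroid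
of the graph with edges `j : ε` joining `s j` and `t j`: a set `C` is contracted and the elements
`p j`, distinct and outside `C`, are kept; up to scaling, the linear relations between the `p j`
modulo the span of `C` are the linear relations between the edge vectors of the graph. -/
def HasGraph (F : Type*) [Field F] {V : Type*} [AddCommGroup V] [Module F V] [Fintype ε]
    (s t : ε → ν) (v : ι → V) : Prop :=
  ∃ (C : Set ι) (p : ε → ι) (c : ε → F), Function.Injective p ∧ (∀ j, p j ∉ C) ∧
    (∀ j, c j ≠ 0) ∧ ∀ x : ε → F, (∑ j, x j • v (p j) ∈ Submodule.span F (v '' C) ↔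
      ∑ j, (x j * c j) • inc F s t j = 0)

variable {F : Type*} [Field F] {V : Type*} [AddCommGroup V] [Module F V] [Fintype ε]

theorem inc_apply (s t : ε → ν) (j : ε) (a : ν) :
    inc F s t j a = (if a = s j then 1 else 0) - if a = t j then 1 else 0 := by
  rw [inc, Pi.sub_apply, Pi.single_apply, Pi.single_apply]

theorem ends_of_inc {s t : ε → ν} {j j' : ε} (hj : s j ≠ t j) {a b : F} (ha : a ≠ 0)
    (h : a • inc F s t j = b • inc F s t j') : s(s j, t j) = s(s j', t j') := by
  have h1 := congrFun h (s j)
  have h2 := congrFun h (t j)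
  rw [Pi.smul_apply, Pi.smul_apply, inc_apply, inc_apply, if_pos rfl, if_neg hj] at h1
  rw [Pi.smul_apply, Pi.smul_apply, inc_apply, inc_apply, if_neg (Ne.symm hj), if_pos rfl] at h2
  have e1 : s j = s j' ∨ s j = t j' := by
    by_contra hcon
    push Not at hcon
    rw [if_neg hcon.1, if_neg hcon.2] at h1
    simp at h1
    exact ha h1
  have e2 : t j = s j' ∨ t j = t j' := by
    by_contra hcon
    push Not at hcon
    rw [if_neg hcon.1, if_neg hcon.2] at h2
    simp at h2
    exact ha h2
  rw [Sym2.eq_iff]
  rcases e1 with e1 | e1 <;> rcases e2 with e2 | e2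
  · exact absurd (e1.trans e2.symm) hj
  · exact Or.inl ⟨e1, e2⟩
  · exact Or.inr ⟨e1, e2⟩
  · exact absurd (e1.trans e2.symm) hj

/-- the relation condition implies that the kept elements are distinct and not contracted -/
theorem hasGraph_of_rel [Fintype ν] (s t : ε → ν) (v : ι → V) (hst : ∀ j, s j ≠ t j)
    (hsimple : Function.Injective fun j => s(s j, t j)) (C : Set ι) (p : ε → ι) (c : ε → F)
    (hc : ∀ j, c j ≠ 0) (hrel : ∀ x : ε → F, (∑ j, x j • v (p j) ∈ Submodule.span F (v '' C) ↔
      ∑ j, (x j * c j) • inc F s t j = 0)) : HasGraph F s t v := by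
  refine ⟨C, p, c, ?_, ?_, hc, hrel⟩
  · intro j j' hjj
    by_contra hne
    have h1 := (hrel (Pi.single j 1 - Pi.single j' 1)).mp (by
      have : ∑ k, (Pi.single j 1 - Pi.single j' 1 : ε → F) k • v (p k) = 0 := by
        simp only [Pi.sub_apply, sub_smul, Finset.sum_sub_distrib, Pi.single_apply, ite_smul,
          one_smul, zero_smul, Finset.sum_ite_eq', Finset.mem_univ, if_true]
        rw [hjj, sub_self]
      rw [this]
      exact Submodule.zero_mem _)
    have h2 : ∑ k, ((Pi.single j 1 - Pi.single j' 1 : ε → F) k * c k) • inc F s t k =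
        c j • inc F s t j - c j' • inc F s t j' := by
      simp only [Pi.sub_apply, sub_mul, sub_smul, Finset.sum_sub_distrib, Pi.single_apply,
        ite_mul, one_mul, zero_mul, ite_smul, zero_smul, Finset.sum_ite_eq', Finset.mem_univ,
        if_true]
    rw [h2] at h1
    exact hne (hsimple (ends_of_inc (hst j) (hc j) (sub_eq_zero.mp h1)))
  · intro j hj
    have h1 := (hrel (Pi.single j 1)).mp (by
      have : ∑ k, (Pi.single j 1 : ε → F) k • v (p k) = v (p j) := by
        simp only [Pi.single_apply, ite_smul, one_smul, zero_smul, Finset.sum_ite_eq',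
          Finset.mem_univ, if_true]
      rw [this]
      exact Submodule.subset_span ⟨p j, hj, rfl⟩)
    have h2 : ∑ k, ((Pi.single j 1 : ε → F) k * c k) • inc F s t k = c j • inc F s t j := by
      simp only [Pi.single_apply, ite_mul, one_mul, zero_mul, ite_smul, zero_smul,
        Finset.sum_ite_eq', Finset.mem_univ, if_true]
    rw [h2] at h1
    have h3 := congrFun h1 (s j)
    rw [Pi.smul_apply, inc_apply, if_pos rfl, if_neg (hst j), sub_zero, smul_eq_mul, mul_one] at h3
    exact hc j h3

/-- a complete graph contains all simple graphs on at most as many vertices -/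
theorem hasGraph_of_hasClique [Fintype ν] (s t : ε → ν) (v : ι → V) (hst : ∀ j, s j ≠ t j)
    (hsimple : Function.Injective fun j => s(s j, t j)) {n : ℕ} (hn : Fintype.card ν ≤ n)
    (hcl : HasClique F n (Set.range v)) : HasGraph F s t v := by
  obtain ⟨C0, hC0, u, h1, h2⟩ := hcl
  obtain ⟨f⟩ : Nonempty (ν ↪ Fin n) := by
    apply Function.Embedding.nonempty_of_card_le
    rwa [Fintype.card_fin]
  have hex : ∀ j, ∃ i, ∃ c : F, c ≠ 0 ∧
      v i - c • (u (f (s j)) - u (f (t j))) ∈ Submodule.span F C0 := by
    intro j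
    obtain ⟨e, ⟨i, rfl⟩, c, hc, hec⟩ := h2 (f (s j)) (f (t j)) (fun h => hst j (f.injective h))
    exact ⟨i, c, hc, hec⟩
  choose p c hc hpc using hex
  have hC : v '' {i | v i ∈ C0} = C0 := by
    ext x
    constructor
    · rintro ⟨i, hi, rfl⟩; exact hi
    · intro hx
      obtain ⟨i, rfl⟩ := hC0 hx
      exact ⟨i, hx, rfl⟩
  refine hasGraph_of_rel s t v hst hsimple {i | v i ∈ C0} p c hc (fun x => ?_)
  rw [hC]
  have e1 : ∑ j, x j • v (p j) ∈ Submodule.span F C0 ↔
      ∑ j, (x j * c j) • (u (f (s j)) - u (f (t j))) ∈ Submodule.span F C0 := by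
    have h3 : ∑ j, x j • (v (p j) - c j • (u (f (s j)) - u (f (t j)))) ∈ Submodule.span F C0 :=
      Submodule.sum_mem _ fun j _ => Submodule.smul_mem _ _ (hpc j)
    have h4 : ∑ j, x j • (v (p j) - c j • (u (f (s j)) - u (f (t j)))) =
        ∑ j, x j • v (p j) - ∑ j, (x j * c j) • (u (f (s j)) - u (f (t j))) := by
      rw [← Finset.sum_sub_distrib]
      refine Finset.sum_congr rfl (fun j _ => ?_)
      rw [smul_sub, smul_smul]
    rw [h4] at h3
    constructor
    · intro h
      have := Submodule.sub_mem _ h h3
      rwa [sub_sub_cancel] at this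
    · intro h
      have := Submodule.add_mem _ h3 h
      rwa [sub_add_cancel] at this
  rw [e1]
  set y : ν → F := ∑ j, (x j * c j) • inc F s t j with hy
  have e2 : ∑ j, (x j * c j) • (u (f (s j)) - u (f (t j))) = ∑ a, y a • u (f a) := by
    have h3 : ∀ a, y a • u (f a) = ∑ j, (x j * c j * inc F s t j a) • u (f a) := by
      intro a
      rw [hy, Finset.sum_apply, Finset.sum_smul]
      rfl
    rw [Finset.sum_congr rfl (fun a _ => h3 a), Finset.sum_comm]
    refine Finset.sum_congr rfl (fun j _ => ?_)
    have h4 : ∀ a, (x j * c j * inc F s t j a) • u (f a) =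
        (if a = s j then (x j * c j) • u (f (s j)) else 0) -
          if a = t j then (x j * c j) • u (f (t j)) else 0 := by
      intro a
      rw [inc_apply]
      by_cases ha : a = s j
      · subst ha
        rw [if_pos rfl, if_pos rfl, if_neg (hst j), if_neg (hst j), sub_zero, mul_one, sub_zero]
      · rw [if_neg ha, if_neg ha]
        by_cases hb : a = t j
        · subst hb
          rw [if_pos rfl, if_pos rfl, zero_sub, zero_sub, mul_neg, mul_one, neg_smul]
        · rw [if_neg hb, if_neg hb, sub_zero, sub_zero, mul_zero, zero_smul]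
    rw [Finset.sum_congr rfl (fun a _ => h4 a), Finset.sum_sub_distrib, Finset.sum_ite_eq',
      Finset.sum_ite_eq', if_pos (Finset.mem_univ _), if_pos (Finset.mem_univ _), smul_sub]
  rw [e2]
  -- push forward to `Fin n`
  set α : Fin n → F := fun i => ∑ a, if f a = i then y a else 0 with hα
  have e3 : ∑ i, α i • u i = ∑ a, y a • u (f a) := by
    simp only [hα, Finset.sum_smul]
    rw [Finset.sum_comm]
    refine Finset.sum_congr rfl (fun a _ => ?_)
    simp only [ite_smul, zero_smul]
    rw [Finset.sum_ite_eq, if_pos (Finset.mem_univ _)]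
  have e4 : ∑ i, α i = 0 := by
    simp only [hα]
    rw [Finset.sum_comm]
    have h5 : ∀ a ∈ (univ : Finset ν), (∑ i, if f a = i then y a else 0) = y a := by
      intro a _
      rw [Finset.sum_ite_eq, if_pos (Finset.mem_univ _)]
    rw [Finset.sum_congr rfl h5, hy]
    simp only [Finset.sum_apply, Pi.smul_apply, smul_eq_mul]
    rw [Finset.sum_comm]
    apply Finset.sum_eq_zero
    intro j _
    rw [← Finset.mul_sum]
    simp only [inc_apply]
    rw [Finset.sum_sub_distrib, Finset.sum_ite_eq', Finset.sum_ite_eq',
      if_pos (Finset.mem_univ _), if_pos (Finset.mem_univ _), sub_self, mul_zero]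
  have e5 : ∀ a, α (f a) = y a := by
    intro a
    simp only [hα]
    rw [Finset.sum_eq_single a]
    · rw [if_pos rfl]
    · intro b _ hb
      rw [if_neg (fun h => hb (f.injective h))]
    · intro h; exact absurd (Finset.mem_univ _) h
  constructor
  · intro h
    rw [← e3] at h
    have h6 := h1 α e4 h
    funext a
    rw [← e5 a, h6]
    rfl
  · intro h
    rw [h]
    simp

/-- **Transfer between a matroid and its dual**: if the flows of the graph `(s', t')` are the
tensions of the graph `(s, t)`, a minor of the dual isomorphic to the cycle matroid of `(s', t')`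
gives a minor isomorphic to the cycle matroid of `(s, t)`. -/
theorem hasGraph_of_dual {ν' : Type*} [Fintype ι] [Fintype ν] (s t : ε → ν) (s' t' : ε → ν')
    (hdual : ∀ y : ε → F, ∑ j, y j • inc F s' t' j = 0 ↔ ∃ x : ν → F, ∀ j, y j = x (s j) - x (t j))
    (v : ι → V) (h : HasGraph F s' t' (dualVec F v)) : HasGraph F s t v := by
  obtain ⟨C, p, c, hp, hpC, hc, hrel⟩ := h
  set D : Set ι := {i | i ∉ C ∧ i ∉ Set.range p} with hD
  refine ⟨D, p, fun j => (c j)⁻¹, hp, fun j hj => hj.2 ⟨j, rfl⟩, fun j => inv_ne_zero (hc j),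
    fun x => ?_⟩
  -- reformulation of the relations of the dual
  have key : ∀ y : ε → F, (∃ φ : Module.Dual F V, (∀ i ∈ D, φ (v i) = 0) ∧
      ∀ j, φ (v (p j)) = y j) ↔ ∑ j, (y j * c j) • inc F s' t' j = 0 := by
    intro y
    rw [← hrel y]
    have h1 : ∑ j, y j • dualVec F v (p j) =
        (rowSpace F v).mkQ (∑ j, y j • (Pi.single (p j) (1 : F) : ι → F)) := by
      rw [map_sum]
      refine Finset.sum_congr rfl (fun j _ => ?_)
      rw [map_smul]
      rfl
    have hS : Submodule.span F (dualVec F v '' C) =
        (Submodule.span F ((fun i => (Pi.single i (1 : F) : ι → F)) '' C)).map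
          (rowSpace F v).mkQ := by
      rw [Submodule.map_span, Set.image_image]
      rfl
    have hin : ∀ z : ι → F, z ∈ Submodule.span F ((fun i => (Pi.single i (1 : F) : ι → F)) '' C)
        ↔ ∀ i, i ∉ C → z i = 0 := by
      intro z
      constructor
      · intro hz
        have hle : Submodule.span F ((fun i => (Pi.single i (1 : F) : ι → F)) '' C) ≤
            { carrier := {z : ι → F | ∀ i, i ∉ C → z i = 0}
              add_mem' := fun {a b} ha hb i hi => by
                rw [Pi.add_apply, ha i hi, hb i hi, add_zero]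
              zero_mem' := fun i _ => rfl
              smul_mem' := fun r a ha i hi => by
                rw [Pi.smul_apply, ha i hi, smul_zero] } := by
          rw [Submodule.span_le]
          rintro _ ⟨i, hi, rfl⟩ k hk
          change (Pi.single i (1 : F) : ι → F) k = 0
          rw [Pi.single_eq_of_ne]
          rintro rfl
          exact hk hi
        exact hle hz
      · intro hz
        have h2 : z = ∑ i ∈ univ.filter (fun i => i ∈ C), z i • (Pi.single i (1 : F) : ι → F) := by
          funext k
          rw [Finset.sum_apply]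
          by_cases hk : k ∈ C
          · rw [Finset.sum_eq_single_of_mem k (Finset.mem_filter.mpr ⟨Finset.mem_univ _, hk⟩)]
            · simp
            · intro y _ hyz
              rw [Pi.smul_apply, Pi.single_eq_of_ne (Ne.symm hyz), smul_zero]
          · rw [hz k hk]
            symm
            apply Finset.sum_eq_zero
            intro y hy
            rw [Pi.smul_apply, Pi.single_eq_of_ne, smul_zero]
            rintro rfl
            exact hk (Finset.mem_filter.mp hy).2
        rw [h2]
        refine Submodule.sum_mem _ fun i hi => Submodule.smul_mem _ _ (Submodule.subset_span ?_)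
        exact ⟨i, (Finset.mem_filter.mp hi).2, rfl⟩
    have hsp : ∀ i, (∑ j, y j • (Pi.single (p j) (1 : F) : ι → F)) i =
        ∑ j, if i = p j then y j else 0 := by
      intro i
      rw [Finset.sum_apply]
      refine Finset.sum_congr rfl (fun j _ => ?_)
      rw [Pi.smul_apply, Pi.single_apply, smul_eq_mul, mul_ite, mul_one, mul_zero]
    have hspp : ∀ j, (∑ k, y k • (Pi.single (p k) (1 : F) : ι → F)) (p j) = y j := by
      intro j
      rw [hsp, Finset.sum_eq_single j]
      · rw [if_pos rfl]
      · intro k _ hk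
        rw [if_neg (fun h => hk (hp h).symm)]
      · intro h; exact absurd (Finset.mem_univ _) h
    have hspn : ∀ i, i ∉ Set.range p →
        (∑ k, y k • (Pi.single (p k) (1 : F) : ι → F)) i = 0 := by
      intro i hi
      rw [hsp]
      apply Finset.sum_eq_zero
      intro k _
      rw [if_neg (fun h => hi ⟨k, h.symm⟩)]
    rw [h1, hS, Submodule.mem_map]
    constructor
    · rintro ⟨φ, hφD, hφp⟩
      refine ⟨(∑ j, y j • (Pi.single (p j) (1 : F) : ι → F)) - fun i => φ (v i), ?_, ?_⟩
      · rw [hin]
        intro i hi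
        rw [Pi.sub_apply]
        by_cases hip : i ∈ Set.range p
        · obtain ⟨j, rfl⟩ := hip
          rw [hspp, hφp, sub_self]
        · rw [hspn i hip, hφD i ⟨hi, hip⟩, sub_self]
      · rw [map_sub]
        have : (rowSpace F v).mkQ (fun i => φ (v i)) = 0 := by
          rw [Submodule.mkQ_apply, Submodule.Quotient.mk_eq_zero]
          exact ⟨φ, fun e => rfl⟩
        rw [this, sub_zero]
    · rintro ⟨z, hz, hzeq⟩
      rw [hin] at hz
      rw [Submodule.mkQ_apply, Submodule.mkQ_apply, Submodule.Quotient.eq] at hzeq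
      obtain ⟨φ, hφ⟩ := hzeq
      refine ⟨-φ, ?_, ?_⟩
      · rintro i ⟨hiC, hip⟩
        have := hφ i
        rw [Pi.sub_apply, hz i hiC, hspn i hip, sub_self] at this
        rw [LinearMap.neg_apply, ← this, neg_zero]
      · intro j
        have := hφ (p j)
        rw [Pi.sub_apply, hz (p j) (hpC j), hspp, zero_sub] at this
        rw [LinearMap.neg_apply, ← this, neg_neg]
  -- separation
  have hsep : ∑ j, x j • v (p j) ∈ Submodule.span F (v '' D) ↔
      ∀ φ : Module.Dual F V, (∀ i ∈ D, φ (v i) = 0) → ∑ j, x j * φ (v (p j)) = 0 := by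
    constructor
    · intro hmem φ hφ
      have hle : Submodule.span F (v '' D) ≤ LinearMap.ker φ := by
        rw [Submodule.span_le]
        rintro _ ⟨i, hi, rfl⟩
        exact hφ i hi
      have := hle hmem
      rw [LinearMap.mem_ker, map_sum] at this
      rw [← this]
      refine Finset.sum_congr rfl (fun j _ => ?_)
      rw [map_smul, smul_eq_mul]
    · intro hall
      by_contra hnot
      obtain ⟨φ, hφ1, hφ2⟩ := Submodule.exists_le_ker_of_notMem hnot
      apply hφ1
      rw [map_sum]
      rw [← hall φ (fun i hi => hφ2 (Submodule.subset_span ⟨i, hi, rfl⟩))]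
      refine Finset.sum_congr rfl (fun j _ => ?_)
      rw [map_smul, smul_eq_mul]
  rw [hsep]
  -- the linear forms vanishing on `D` are the tensions
  have hten : ∀ y : ε → F, (∃ φ : Module.Dual F V, (∀ i ∈ D, φ (v i) = 0) ∧
      ∀ j, φ (v (p j)) = y j) ↔ ∃ z : ν → F, ∀ j, y j * c j = z (s j) - z (t j) := by
    intro y
    rw [key, hdual]
  have hfin : ∀ z : ν → F, ∑ j, x j * (c j)⁻¹ * (z (s j) - z (t j)) =
      ∑ a, (∑ j, (x j * (c j)⁻¹) • inc F s t j) a * z a := by
    intro z
    have h1 : ∀ a ∈ (univ : Finset ν), (∑ j, (x j * (c j)⁻¹) • inc F s t j) a * z a =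
        ∑ j, x j * (c j)⁻¹ * (inc F s t j a * z a) := by
      intro a _
      rw [Finset.sum_apply, Finset.sum_mul]
      refine Finset.sum_congr rfl (fun j _ => ?_)
      rw [Pi.smul_apply, smul_eq_mul]
      ring
    rw [Finset.sum_congr rfl h1, Finset.sum_comm]
    refine Finset.sum_congr rfl (fun j _ => ?_)
    rw [← Finset.mul_sum]
    congr 1
    simp only [inc_apply, sub_mul, ite_mul, one_mul, zero_mul]
    rw [Finset.sum_sub_distrib, Finset.sum_ite_eq', Finset.sum_ite_eq',
      if_pos (Finset.mem_univ _), if_pos (Finset.mem_univ _)]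
  constructor
  · intro hall
    funext a
    have hz := (hten (fun j => (c j)⁻¹ * ((Pi.single a 1 : ν → F) (s j) -
      (Pi.single a 1 : ν → F) (t j)))).mpr ⟨Pi.single a 1, fun j => by
        field_simp [hc j]⟩
    obtain ⟨φ, hφ1, hφ2⟩ := hz
    have h1 := hall φ hφ1
    have h2 : ∑ j, x j * φ (v (p j)) = ∑ j, x j * (c j)⁻¹ * ((Pi.single a 1 : ν → F) (s j) -
      (Pi.single a 1 : ν → F) (t j)) := by
      refine Finset.sum_congr rfl (fun j _ => ?_)
      rw [hφ2 j]
      ring
    rw [h2, hfin, Finset.sum_eq_single a] at h1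
    · rw [Pi.single_eq_same, mul_one] at h1
      exact h1
    · intro b _ hb
      rw [Pi.single_eq_of_ne hb, mul_zero]
    · intro h; exact absurd (Finset.mem_univ _) h
  · intro h0 φ hφ
    obtain ⟨z, hz⟩ := (hten (fun j => φ (v (p j)))).mp ⟨φ, hφ, fun j => rfl⟩
    have h2 : ∑ j, x j * φ (v (p j)) = ∑ j, x j * (c j)⁻¹ * (z (s j) - z (t j)) := by
      refine Finset.sum_congr rfl (fun j _ => ?_)
      rw [← hz j]
      field_simp [hc j]
    rw [h2, hfin, h0]
    simp

end

end Pool.Agent.Helper91.Cq
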