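import Pool.Agent.Helper91.Cq.Graph

/-!
# Matroids without `M(K_4)` minor
-/

set_option autoImplicit false

open Finset Module
open scoped Classical

namespace Pool.Agent.Helper91.Cq

open Pool.Agent.Helper35.Cq

/-- first ends of the edges of `K_4` -/
def ks : Fin 6 → Fin 4 := ![0, 0, 0, 1, 1, 2]

/-- second ends of the edges of `K_4` -/
def kt : Fin 6 → Fin 4 := ![1, 2, 3, 2, 3, 3]

/-- first ends of the edges of the dual `K_4` -/
def ks' : Fin 6 → Fin 4 := ![0, 2, 1, 0, 3, 2]

/-- second ends of the edges of the dual `K_4` -/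
def kt' : Fin 6 → Fin 4 := ![1, 0, 2, 3, 1, 3]

theorem ks'_ne : ∀ j, ks' j ≠ kt' j := by decide

theorem ks'_simple : Function.Injective fun j => s(ks' j, kt' j) := by decide

theorem k_dual (F : Type*) [Field F] (y : Fin 6 → F) :
    ∑ j, y j • inc F ks' kt' j = 0 ↔ ∃ x : Fin 4 → F, ∀ j, y j = x (ks j) - x (kt j) := by
  constructor
  · intro h
    have h0 := congrFun h 0
    have h1 := congrFun h 1
    have h2 := congrFun h 2
    simp [Fin.sum_univ_six, inc, ks', kt', Pi.single_apply] at h0 h1 h2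
    refine ⟨![0, - y 0, - y 1, - y 2], fun j => ?_⟩
    fin_cases j
    · simp [ks, kt]
    · simp [ks, kt]
    · simp [ks, kt]
    · simp [ks, kt]
      linear_combination h0
    · simp [ks, kt]
      linear_combination -h1
    · simp [ks, kt]
      linear_combination h2
  · rintro ⟨x, hx⟩
    have e0 := hx 0
    have e1 := hx 1
    have e2 := hx 2
    have e3 := hx 3
    have e4 := hx 4
    have e5 := hx 5
    simp [ks, kt] at e0 e1 e2 e3 e4 e5
    funext a
    fin_cases a <;>
      simp [Fin.sum_univ_six, inc, ks', kt', Pi.single_apply, e0, e1, e2, e3, e4, e5]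

theorem hasClique_of_hasGraph {F : Type*} [Field F] {V : Type*} [AddCommGroup V] [Module F V]
    {ι : Type*} (v : ι → V) (h : HasGraph F ks kt v) : HasClique F 4 (Set.range v) := by
  obtain ⟨C, p, c, -, -, hc, hrel⟩ := h
  set S := Submodule.span F (v '' C) with hS
  set u : Fin 4 → V := ![0, -((c 0)⁻¹ • v (p 0)), -((c 1)⁻¹ • v (p 1)), -((c 2)⁻¹ • v (p 2))]
    with hu
  have u0 : u 0 = 0 := rfl
  have u1 : u 1 = -((c 0)⁻¹ • v (p 0)) := rfl
  have u2 : u 2 = -((c 1)⁻¹ • v (p 1)) := rfl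
  have u3 : u 3 = -((c 2)⁻¹ • v (p 2)) := rfl
  refine ⟨v '' C, by rintro _ ⟨i, -, rfl⟩; exact ⟨i, rfl⟩, u, ?_, ?_⟩
  · intro α hα hmem
    have h1 := (hrel ![-(α 1 * (c 0)⁻¹), -(α 2 * (c 1)⁻¹), -(α 3 * (c 2)⁻¹), 0, 0, 0]).mp (by
      have e : ∑ j, (![-(α 1 * (c 0)⁻¹), -(α 2 * (c 1)⁻¹), -(α 3 * (c 2)⁻¹), 0, 0, 0] :
          Fin 6 → F) j • v (p j) = ∑ i, α i • u i := by
        rw [Fin.sum_univ_six, Fin.sum_univ_four, u0, u1, u2, u3]
        simp [mul_smul]
      rw [e]
      exact hmem)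
    have g1 := congrFun h1 1
    have g2 := congrFun h1 2
    have g3 := congrFun h1 3
    simp [Fin.sum_univ_six, inc, ks, kt, Pi.single_apply, hc] at g1 g2 g3
    rw [Fin.sum_univ_four, g1, g2, g3] at hα
    simp at hα
    funext i
    fin_cases i
    · exact hα
    · exact g1
    · exact g2
    · exact g3
  · -- pairs
    have key : ∀ (i j : Fin 4), (∃ e, ks e = i ∧ kt e = j) → ∃ e ∈ Set.range v, ∃ d : F, d ≠ 0 ∧
        e - d • (u i - u j) ∈ S := by
      rintro i j ⟨e, rfl, rfl⟩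
      refine ⟨v (p e), ⟨_, rfl⟩, c e, hc e, ?_⟩
      fin_cases e
      · change v (p 0) - c 0 • (u 0 - u 1) ∈ S
        rw [u0, u1, zero_sub, neg_neg, smul_smul, mul_inv_cancel₀ (hc 0), one_smul, sub_self]
        exact Submodule.zero_mem _
      · change v (p 1) - c 1 • (u 0 - u 2) ∈ S
        rw [u0, u2, zero_sub, neg_neg, smul_smul, mul_inv_cancel₀ (hc 1), one_smul, sub_self]
        exact Submodule.zero_mem _
      · change v (p 2) - c 2 • (u 0 - u 3) ∈ S
        rw [u0, u3, zero_sub, neg_neg, smul_smul, mul_inv_cancel₀ (hc 2), one_smul, sub_self]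
        exact Submodule.zero_mem _
      · change v (p 3) - c 3 • (u 1 - u 2) ∈ S
        have h1 := (hrel ![c 3 * (c 0)⁻¹, -(c 3 * (c 1)⁻¹), 0, 1, 0, 0]).mpr (by
          funext a
          fin_cases a <;> simp [Fin.sum_univ_six, inc, ks, kt, Pi.single_apply, hc])
        have e : ∑ j, (![c 3 * (c 0)⁻¹, -(c 3 * (c 1)⁻¹), 0, 1, 0, 0] :
          Fin 6 → F) j • v (p j) = v (p 3) - c 3 • (u 1 - u 2) := by
          rw [Fin.sum_univ_six, u1, u2]
          simp [mul_smul, smul_sub]
          abel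
        rw [e] at h1
        exact h1
      · change v (p 4) - c 4 • (u 1 - u 3) ∈ S
        have h1 := (hrel ![c 4 * (c 0)⁻¹, 0, -(c 4 * (c 2)⁻¹), 0, 1, 0]).mpr (by
          funext a
          fin_cases a <;> simp [Fin.sum_univ_six, inc, ks, kt, Pi.single_apply, hc])
        have e : ∑ j, (![c 4 * (c 0)⁻¹, 0, -(c 4 * (c 2)⁻¹), 0, 1, 0] :
          Fin 6 → F) j • v (p j) = v (p 4) - c 4 • (u 1 - u 3) := by
          rw [Fin.sum_univ_six, u1, u3]
          simp [mul_smul, smul_sub]
          abel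
        rw [e] at h1
        exact h1
      · change v (p 5) - c 5 • (u 2 - u 3) ∈ S
        have h1 := (hrel ![0, c 5 * (c 1)⁻¹, -(c 5 * (c 2)⁻¹), 0, 0, 1]).mpr (by
          funext a
          fin_cases a <;> simp [Fin.sum_univ_six, inc, ks, kt, Pi.single_apply, hc])
        have e : ∑ j, (![0, c 5 * (c 1)⁻¹, -(c 5 * (c 2)⁻¹), 0, 0, 1] :
          Fin 6 → F) j • v (p j) = v (p 5) - c 5 • (u 2 - u 3) := by
          rw [Fin.sum_univ_six, u2, u3]
          simp [mul_smul, smul_sub]
          abel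
        rw [e] at h1
        exact h1
    intro i j hij
    have hcase : (∃ e, ks e = i ∧ kt e = j) ∨ ∃ e, ks e = j ∧ kt e = i := by
      revert i j
      decide
    rcases hcase with h1 | h1
    · exact key i j h1
    · obtain ⟨e, he, d, hd, hed⟩ := key j i h1
      refine ⟨e, he, -d, neg_ne_zero.mpr hd, ?_⟩
      have : e - -d • (u i - u j) = e - d • (u j - u i) := by module
      rw [this]
      exact hed

/-- an `M(K_4)` minor of the dual gives an `M(K_4)` minor -/
theorem hasClique_four_of_dual {F : Type*} [Field F] {V : Type*} [AddCommGroup V] [Module F V]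
    {ι : Type*} [Fintype ι] (v : ι → V) (h : HasClique F 4 (Set.range (dualVec F v))) :
    HasClique F 4 (Set.range v) :=
  hasClique_of_hasGraph v (hasGraph_of_dual ks kt ks' kt' (k_dual F) v
    (hasGraph_of_hasClique ks' kt' (dualVec F v) ks'_ne ks'_simple (by simp) h))

/-- uniform bound for the critical exponent of matroids without `M(K_4)` minor -/
theorem four {F : Type*} [Field F] [Fintype F] {V : Type*} [AddCommGroup V] [Module F V]
    (E : Finset V) (h0 : ∀ x ∈ E, x ≠ 0) (hE : ¬ HasClique F 4 (E : Set V)) :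
    ∃ φ : V →ₗ[F] (Fin 1389 → F), ∀ x ∈ E, φ x ≠ 0 := by
  have hr : Set.range (Subtype.val : {x // x ∈ E} → V) = (E : Set V) := by
    ext x; simp
  obtain ⟨φ, hφ⟩ := two_sided (F := F) 4 _ (Subtype.val : {x // x ∈ E} → V) rfl
    (fun e => h0 e.1 e.2) (by rw [hr]; exact hE)
    (fun h => hE (by rw [← hr]; exact hasClique_four_of_dual _ h))
  exact ⟨φ, fun x hx => hφ ⟨x, hx⟩⟩

end Pool.Agent.Helper91.Cq
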