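import Mathlib

/-!
# A packing lemma of Haussler type

Rows `r i` (`i : κ`) in `υ → F`.  If the traces of the rows on every set `X` of coordinates are
few and span few edges, and any two rows with the same nonzero trace differ in many coordinates,
then there are not too many rows.
-/

set_option autoImplicit false

open Finset
open scoped Classical

namespace Pool.Agent.Helper91.Cq

variable {F : Type*} [Field F] {υ κ : Type*} [Fintype υ] [Fintype κ]

/-- restriction of a vector to a set of coordinates (zero outside) -/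
noncomputable def restr (X : Finset υ) (u : υ → F) : υ → F := fun y => if y ∈ X then u y else 0

theorem restr_apply (X : Finset υ) (u : υ → F) (y : υ) :
    restr X u y = if y ∈ X then u y else 0 := rfl

theorem restr_restr {X X' : Finset υ} (h : X' ⊆ X) (u : υ → F) :
    restr X' (restr X u) = restr X' u := by
  funext y
  simp only [restr_apply]
  by_cases hy : y ∈ X'
  · simp [hy, h hy]
  · simp [hy]

/-- `u` and `v` differ exactly in the coordinate `a` of `X`, and their common restriction to the
other coordinates of `X` is not zero -/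
def Dir (X : Finset υ) (a : υ) (u v : υ → F) : Prop :=
  u ≠ v ∧ restr (X.erase a) u = restr (X.erase a) v ∧ restr (X.erase a) u ≠ 0

/-- `u` and `v` differ exactly in one coordinate of `X`, and their common restriction to the
other coordinates of `X` is not zero -/
def Adj (X : Finset υ) (u v : υ → F) : Prop := ∃ a ∈ X, Dir X a u v

/-- the restricted rows -/
noncomputable def tr (r : κ → υ → F) (X : Finset υ) (i : κ) : υ → F := restr X (r i)

/-- the number of rows with a given restriction -/
noncomputable def cnt (r : κ → υ → F) (X : Finset υ) (u : υ → F) : ℕ :=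
  (univ.filter fun i : κ => tr r X i = u).card

/-- the set of nonzero traces -/
noncomputable def traces (r : κ → υ → F) (X : Finset υ) : Finset (υ → F) :=
  (univ.image (tr r X)).erase 0

theorem dir_unique {X : Finset υ} {a a' : υ} {u v : υ → F} (hu : restr X u = u)
    (hv : restr X v = v) (h : Dir X a u v) (h' : Dir X a' u v) : a = a' := by
  by_contra hne
  apply h.1
  rw [← hu, ← hv]
  funext y
  simp only [restr_apply]
  by_cases hy : y ∈ X
  · rw [if_pos hy, if_pos hy]
    by_cases hya : y = a
    · have h1 := congrFun h'.2.1 y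
      simp only [restr_apply] at h1
      have : y ∈ X.erase a' := Finset.mem_erase.mpr ⟨by rw [hya]; exact hne, hy⟩
      rwa [if_pos this, if_pos this] at h1
    · have h1 := congrFun h.2.1 y
      simp only [restr_apply] at h1
      have : y ∈ X.erase a := Finset.mem_erase.mpr ⟨hya, hy⟩
      rwa [if_pos this, if_pos this] at h1
  · rw [if_neg hy, if_neg hy]

/-- weight of the pair `(i, j)` in direction `a` -/
noncomputable def wt (r : κ → υ → F) (X : Finset υ) (a : υ) (i j : κ) : ℝ :=
  if Dir X a (tr r X i) (tr r X j) then ((cnt r (X.erase a) (tr r (X.erase a) i) : ℕ) : ℝ)⁻¹ else 0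

theorem tr_erase (r : κ → υ → F) (X : Finset υ) (a : υ) (i : κ) :
    restr (X.erase a) (tr r X i) = tr r (X.erase a) i :=
  restr_restr (Finset.erase_subset _ _) _

theorem cnt_pos (r : κ → υ → F) (X : Finset υ) (i : κ) : 0 < cnt r X (tr r X i) :=
  Finset.card_pos.mpr ⟨i, by simp⟩

theorem cnt_le (r : κ → υ → F) (X : Finset υ) (u : υ → F) : cnt r X u ≤ Fintype.card κ :=
  (Finset.card_filter_le _ _).trans (by simp)

theorem cnt_mono (r : κ → υ → F) (X : Finset υ) (a : υ) (i j : κ)
    (h : tr r (X.erase a) i = tr r (X.erase a) j) :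
    cnt r X (tr r X j) ≤ cnt r (X.erase a) (tr r (X.erase a) i) := by
  apply Finset.card_le_card
  intro k hk
  rw [Finset.mem_filter] at hk ⊢
  refine ⟨Finset.mem_univ _, ?_⟩
  rw [← tr_erase, hk.2, tr_erase, h]

/-- upper bound for the weights of one set -/
theorem upper (r : κ → υ → F) (X : Finset υ) (D : ℝ) (hD : 0 ≤ D)
    (hadj : ∀ T ⊆ traces r X, (((T ×ˢ T).filter fun p => Adj X p.1 p.2).card : ℝ) ≤ D * T.card) :
    ∑ a ∈ X, ∑ i, ∑ j, wt r X a i j ≤ D * Fintype.card κ := by
  -- pointwise bound
  have h1 : ∀ i j : κ, ∑ a ∈ X, wt r X a i j ≤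
      if Adj X (tr r X i) (tr r X j) then
        ((max (cnt r X (tr r X i)) (cnt r X (tr r X j)) : ℕ) : ℝ)⁻¹ else 0 := by
    intro i j
    by_cases hA : Adj X (tr r X i) (tr r X j)
    · rw [if_pos hA]
      obtain ⟨a, ha, hdir⟩ := hA
      have h2 : ∑ a' ∈ X, wt r X a' i j = wt r X a i j := by
        refine Finset.sum_eq_single_of_mem a ha (fun a' ha' hne => ?_)
        rw [wt, if_neg]
        intro hd
        exact hne (dir_unique (restr_restr subset_rfl _) (restr_restr subset_rfl _) hd hdir)
      rw [h2, wt, if_pos hdir]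
      have h3 := hdir.2.1
      rw [tr_erase, tr_erase] at h3
      apply inv_anti₀
      · have := cnt_pos r X i
        exact_mod_cast lt_of_lt_of_le this (le_max_left _ _)
      · exact_mod_cast max_le (cnt_mono r X a i i rfl) (cnt_mono r X a i j h3)
    · rw [if_neg hA]
      apply le_of_eq
      refine Finset.sum_eq_zero (fun a ha => ?_)
      rw [wt, if_neg]
      exact fun hd => hA ⟨a, ha, hd⟩
  rw [Finset.sum_comm]
  have h2 : ∑ i, ∑ a ∈ X, ∑ j, wt r X a i j ≤ ∑ p : κ × κ,
      if Adj X (tr r X p.1) (tr r X p.2) then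
        ((max (cnt r X (tr r X p.1)) (cnt r X (tr r X p.2)) : ℕ) : ℝ)⁻¹ else 0 := by
    rw [Fintype.sum_prod_type]
    refine Finset.sum_le_sum (fun i _ => ?_)
    rw [Finset.sum_comm]
    exact Finset.sum_le_sum (fun j _ => h1 i j)
  refine h2.trans ?_
  -- grouping
  have h3 : (∑ p : κ × κ, if Adj X (tr r X p.1) (tr r X p.2) then
        ((max (cnt r X (tr r X p.1)) (cnt r X (tr r X p.2)) : ℕ) : ℝ)⁻¹ else 0) =
      ∑ q ∈ (univ.image fun p : κ × κ => (tr r X p.1, tr r X p.2)),
        if Adj X q.1 q.2 then ((min (cnt r X q.1) (cnt r X q.2) : ℕ) : ℝ) else 0 := by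
    rw [Finset.sum_comp (s := (univ : Finset (κ × κ)))
      (f := fun q : (υ → F) × (υ → F) => if Adj X q.1 q.2 then
        ((max (cnt r X q.1) (cnt r X q.2) : ℕ) : ℝ)⁻¹ else 0)
      (g := fun p : κ × κ => (tr r X p.1, tr r X p.2))]
    refine Finset.sum_congr rfl (fun q hq => ?_)
    obtain ⟨p, -, rfl⟩ := Finset.mem_image.mp hq
    have h4 : (univ.filter fun p' : κ × κ => (tr r X p'.1, tr r X p'.2) =
        (tr r X p.1, tr r X p.2)).card = cnt r X (tr r X p.1) * cnt r X (tr r X p.2) := by
      rw [cnt, cnt, ← Finset.card_product]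
      congr 1
      ext p'
      simp [Prod.ext_iff]
    rw [h4]
    by_cases hA : Adj X (tr r X p.1) (tr r X p.2)
    · rw [if_pos hA, if_pos hA, nsmul_eq_mul]
      have hp1 : (0 : ℝ) < cnt r X (tr r X p.1) := by exact_mod_cast cnt_pos r X p.1
      have hp2 : (0 : ℝ) < cnt r X (tr r X p.2) := by exact_mod_cast cnt_pos r X p.2
      have h5 : (cnt r X (tr r X p.1) * cnt r X (tr r X p.2) : ℕ) =
          max (cnt r X (tr r X p.1)) (cnt r X (tr r X p.2)) *
            min (cnt r X (tr r X p.1)) (cnt r X (tr r X p.2)) := (max_mul_min _ _).symm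
      rw [h5]
      push_cast
      have : (0 : ℝ) < max (cnt r X (tr r X p.1) : ℝ) (cnt r X (tr r X p.2)) :=
        lt_of_lt_of_le hp1 (le_max_left _ _)
      field_simp
    · rw [if_neg hA, if_neg hA, smul_zero]
  rw [h3]
  -- layer cake
  set N := Fintype.card κ with hN
  have h4 : ∀ a b : ℕ, a ≤ N → b ≤ N → ((min a b : ℕ) : ℝ) =
      ∑ m ∈ Finset.range N, if m < a ∧ m < b then (1 : ℝ) else 0 := by
    intro a b ha hb
    rw [Finset.sum_ite, Finset.sum_const_zero, add_zero, Finset.sum_const, nsmul_eq_mul, mul_one]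
    congr 1
    have : (Finset.range N).filter (fun m => m < a ∧ m < b) = Finset.range (min a b) := by
      ext m
      simp only [Finset.mem_filter, Finset.mem_range, lt_min_iff]
      constructor
      · exact fun h => h.2
      · exact fun h => ⟨lt_of_lt_of_le h.1 ha, h⟩
    rw [this, Finset.card_range]
  have h5 : ∑ q ∈ (univ.image fun p : κ × κ => (tr r X p.1, tr r X p.2)),
        (if Adj X q.1 q.2 then ((min (cnt r X q.1) (cnt r X q.2) : ℕ) : ℝ) else 0) ≤
      ∑ m ∈ Finset.range N, (((((traces r X).filter fun u => m < cnt r X u) ×ˢ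
        ((traces r X).filter fun u => m < cnt r X u)).filter
          fun p => Adj X p.1 p.2).card : ℝ) := by
    have h6 : ∀ q ∈ (univ.image fun p : κ × κ => (tr r X p.1, tr r X p.2)),
        (if Adj X q.1 q.2 then ((min (cnt r X q.1) (cnt r X q.2) : ℕ) : ℝ) else 0) =
        ∑ m ∈ Finset.range N, if Adj X q.1 q.2 ∧ m < cnt r X q.1 ∧ m < cnt r X q.2
          then (1 : ℝ) else 0 := by
      intro q _
      by_cases hA : Adj X q.1 q.2
      · rw [if_pos hA, h4 _ _ (cnt_le r X q.1) (cnt_le r X q.2)]
        refine Finset.sum_congr rfl (fun m _ => ?_)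
        simp [hA]
      · rw [if_neg hA]
        simp [hA]
    rw [Finset.sum_congr rfl h6, Finset.sum_comm]
    refine Finset.sum_le_sum (fun m _ => ?_)
    rw [Finset.sum_ite, Finset.sum_const_zero, add_zero, Finset.sum_const, nsmul_eq_mul, mul_one]
    have h7 : (univ.image fun p : κ × κ => (tr r X p.1, tr r X p.2)).filter
        (fun q => Adj X q.1 q.2 ∧ m < cnt r X q.1 ∧ m < cnt r X q.2) ⊆
        ((((traces r X).filter fun u => m < cnt r X u) ×ˢ
        ((traces r X).filter fun u => m < cnt r X u)).filter fun p => Adj X p.1 p.2) := by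
      intro q hq
      rw [Finset.mem_filter, Finset.mem_image] at hq
      obtain ⟨⟨p, -, rfl⟩, hA, hm1, hm2⟩ := hq
      have hne1 : tr r X p.1 ≠ 0 := by
        obtain ⟨a, _, _, _, h8⟩ := hA
        intro h0
        apply h8
        rw [h0]
        funext y
        simp [restr_apply]
      have hne2 : tr r X p.2 ≠ 0 := by
        obtain ⟨a, _, _, h7, h8⟩ := hA
        intro h0
        apply h8
        rw [h7, h0]
        funext y
        simp [restr_apply]
      simp only [Finset.mem_filter, Finset.mem_product, traces, Finset.mem_erase,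
        Finset.mem_image, Finset.mem_univ, true_and]
      exact ⟨⟨⟨⟨hne1, p.1, rfl⟩, hm1⟩, ⟨hne2, p.2, rfl⟩, hm2⟩, hA⟩
    exact_mod_cast Finset.card_le_card h7
  refine h5.trans ?_
  have h8 : ∀ m ∈ Finset.range N, (((((traces r X).filter fun u => m < cnt r X u) ×ˢ
        ((traces r X).filter fun u => m < cnt r X u)).filter
          fun p => Adj X p.1 p.2).card : ℝ) ≤
      D * ((traces r X).filter fun u => m < cnt r X u).card := fun m _ =>
    hadj _ (Finset.filter_subset _ _)
  refine (Finset.sum_le_sum h8).trans ?_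
  rw [← Finset.mul_sum]
  apply mul_le_mul_of_nonneg_left _ hD
  have h9 : ∑ m ∈ Finset.range N, (((traces r X).filter fun u => m < cnt r X u).card : ℝ) =
      ∑ u ∈ traces r X, (cnt r X u : ℝ) := by
    have h10 : ∀ m ∈ Finset.range N, (((traces r X).filter fun u => m < cnt r X u).card : ℝ) =
        ∑ u ∈ traces r X, if m < cnt r X u then (1 : ℝ) else 0 := by
      intro m _
      rw [Finset.sum_ite, Finset.sum_const_zero, add_zero, Finset.sum_const, nsmul_eq_mul, mul_one]
    rw [Finset.sum_congr rfl h10, Finset.sum_comm]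
    refine Finset.sum_congr rfl (fun u _ => ?_)
    rw [Finset.sum_ite, Finset.sum_const_zero, add_zero, Finset.sum_const, nsmul_eq_mul, mul_one]
    have : (Finset.range N).filter (fun m => m < cnt r X u) = Finset.range (cnt r X u) := by
      ext m
      simp only [Finset.mem_filter, Finset.mem_range]
      exact ⟨fun h => h.2, fun h => ⟨lt_of_lt_of_le h (cnt_le r X u), h⟩⟩
    rw [this, Finset.card_range]
  rw [h9]
  have h11 : ∑ u ∈ traces r X, cnt r X u ≤ Fintype.card κ := by
    have h12 := Finset.card_eq_sum_card_image (tr r X) (univ : Finset κ)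
    rw [← Finset.card_univ, h12]
    exact Finset.sum_le_sum_of_subset (Finset.erase_subset _ _)
  exact_mod_cast h11

/-- double counting of pairs (set, element) -/
theorem sum_powerset_swap {α : Type*} [Fintype α] (k : ℕ) (f : Finset α → α → ℝ) :
    ∑ X ∈ (univ : Finset α).powersetCard (k + 1), ∑ a ∈ X, f X a =
      ∑ X ∈ (univ : Finset α).powersetCard k, ∑ a ∈ Xᶜ, f (insert a X) a := by
  rw [Finset.sum_sigma', Finset.sum_sigma']
  refine Finset.sum_bij' (fun p _ => ⟨p.1.erase p.2, p.2⟩) (fun p _ => ⟨insert p.2 p.1, p.2⟩)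
    ?_ ?_ ?_ ?_ ?_
  · rintro ⟨X, a⟩ h
    simp only [Finset.mem_sigma, Finset.mem_powersetCard, Finset.subset_univ, true_and,
      Finset.mem_compl] at h ⊢
    exact ⟨by rw [Finset.card_erase_of_mem h.2, h.1]; rfl, by simp⟩
  · rintro ⟨X, a⟩ h
    simp only [Finset.mem_sigma, Finset.mem_powersetCard, Finset.subset_univ, true_and,
      Finset.mem_compl] at h ⊢
    exact ⟨by rw [Finset.card_insert_of_notMem h.2, h.1], by simp⟩
  · rintro ⟨X, a⟩ h
    simp only [Finset.mem_sigma] at h
    simp [Finset.insert_erase h.2]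
  · rintro ⟨X, a⟩ h
    simp only [Finset.mem_sigma, Finset.mem_compl] at h
    simp [Finset.erase_insert h.2]
  · rintro ⟨X, a⟩ h
    simp only [Finset.mem_sigma] at h
    simp [Finset.insert_erase h.2]

/-- indicator of a row whose restriction is supported exactly on `a` -/
noncomputable def zw (r : κ → υ → F) (X : Finset υ) (a : υ) (i : κ) : ℝ :=
  if tr r (X.erase a) i = 0 ∧ r i a ≠ 0 then 1 else 0

theorem zupper (r : κ → υ → F) (X : Finset υ) :
    ∑ a ∈ X, ∑ i, zw r X a i ≤ Fintype.card κ := by
  rw [Finset.sum_comm]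
  have h1 : ∀ i ∈ (univ : Finset κ), ∑ a ∈ X, zw r X a i ≤ 1 := by
    intro i _
    by_cases h : ∃ a ∈ X, tr r (X.erase a) i = 0 ∧ r i a ≠ 0
    · obtain ⟨a, ha, h2, h3⟩ := h
      rw [Finset.sum_eq_single_of_mem a ha]
      · rw [zw]
        split_ifs <;> norm_num
      · intro a' ha' hne
        rw [zw, if_neg]
        rintro ⟨h4, h5⟩
        have h6 := congrFun h2 a'
        rw [tr, restr_apply, if_pos (Finset.mem_erase.mpr ⟨hne, ha'⟩)] at h6
        exact h5 h6
    · push Not at h
      rw [Finset.sum_eq_zero]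
      · norm_num
      · intro a ha
        rw [zw, if_neg]
        rintro ⟨h4, h5⟩
        exact h5 (h a ha h4)
  refine (Finset.sum_le_sum h1).trans ?_
  simp

theorem tr_eq_iff (r : κ → υ → F) (X : Finset υ) (i j : κ) :
    tr r X i = tr r X j ↔ ∀ y ∈ X, r i y = r j y := by
  constructor
  · intro h y hy
    have := congrFun h y
    simpa [tr, restr_apply, hy] using this
  · intro h
    funext y
    by_cases hy : y ∈ X
    · simp [tr, restr_apply, hy, h y hy]
    · simp [tr, restr_apply, hy]

theorem dir_iff (r : κ → υ → F) (X : Finset υ) (a : υ) (ha : a ∉ X) (i j : κ) :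
    Dir (insert a X) a (tr r (insert a X) i) (tr r (insert a X) j) ↔
      r i a ≠ r j a ∧ tr r X i = tr r X j ∧ tr r X i ≠ 0 := by
  rw [Dir, tr_erase, tr_erase, Finset.erase_insert ha]
  constructor
  · rintro ⟨h1, h2, h3⟩
    refine ⟨fun h => h1 ?_, h2, h3⟩
    rw [tr_eq_iff] at h2 ⊢
    intro y hy
    rcases Finset.mem_insert.mp hy with rfl | hy
    · exact h
    · exact h2 y hy
  · rintro ⟨h1, h2, h3⟩
    refine ⟨fun h => h1 ?_, h2, h3⟩
    rw [tr_eq_iff] at h
    exact h a (Finset.mem_insert_self _ _)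

/-- lower bound for the weights -/
theorem lower (r : κ → υ → F) (X : Finset υ) (g : ℕ)
    (h1 : ∀ i j, i ≠ j → tr r X i = tr r X j → tr r X i ≠ 0 →
      g ≤ (univ.filter fun a => r i a ≠ r j a).card)
    (h2 : ∀ i, g ≤ (univ.filter fun a => r i a ≠ 0).card) :
    (g : ℝ) * (Fintype.card κ - (traces r X).card) ≤
      ∑ a ∈ Xᶜ, ((∑ i, ∑ j, wt r (insert a X) a i j) + ∑ i, zw r (insert a X) a i) := by
  -- pointwise lower bound
  have key : ∀ i : κ, (g : ℝ) * (1 - if tr r X i = 0 then 0 else ((cnt r X (tr r X i) : ℕ) : ℝ)⁻¹)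
      ≤ ∑ a ∈ Xᶜ, ((∑ j, wt r (insert a X) a i j) + zw r (insert a X) a i) := by
    intro i
    by_cases h0 : tr r X i = 0
    · rw [if_pos h0]
      have h3 : ((univ.filter fun a => r i a ≠ 0).card : ℝ) =
          ∑ a ∈ Xᶜ, zw r (insert a X) a i := by
        have h4 : ∀ a ∈ Xᶜ, zw r (insert a X) a i = if r i a ≠ 0 then 1 else 0 := by
          intro a ha
          rw [zw, Finset.erase_insert (Finset.mem_compl.mp ha)]
          simp [h0]
        rw [Finset.sum_congr rfl h4, Finset.sum_boole]
        congr 1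
        apply Finset.card_bij (fun a _ => a)
        · intro a ha
          rw [Finset.mem_filter] at ha ⊢
          refine ⟨Finset.mem_compl.mpr fun haX => ha.2 ?_, ha.2⟩
          have := congrFun h0 a
          simpa [tr, restr_apply, haX] using this
        · intro a _ b _ h; exact h
        · intro a ha
          rw [Finset.mem_filter] at ha
          exact ⟨a, Finset.mem_filter.mpr ⟨Finset.mem_univ _, ha.2⟩, rfl⟩
      rw [Finset.sum_add_distrib, ← h3]
      have h5 : (0 : ℝ) ≤ ∑ a ∈ Xᶜ, ∑ j, wt r (insert a X) a i j := by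
        refine Finset.sum_nonneg fun a _ => Finset.sum_nonneg fun j _ => ?_
        rw [wt]
        split_ifs
        · positivity
        · exact le_rfl
      have h6 : (g : ℝ) ≤ ((univ.filter fun a => r i a ≠ 0).card : ℝ) := by
        exact_mod_cast h2 i
      linarith
    · rw [if_neg h0]
      have hz : (0 : ℝ) ≤ ∑ a ∈ Xᶜ, zw r (insert a X) a i := by
        refine Finset.sum_nonneg fun a _ => ?_
        rw [zw]
        split_ifs <;> norm_num
      set m := cnt r X (tr r X i) with hm
      have hmpos : 0 < m := cnt_pos r X i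
      have hmR : (0 : ℝ) < m := by exact_mod_cast hmpos
      have h3 : ∑ a ∈ Xᶜ, ∑ j, wt r (insert a X) a i j =
          ∑ j, if tr r X i = tr r X j then
            (((Xᶜ : Finset υ).filter fun a => r i a ≠ r j a).card : ℝ) * (m : ℝ)⁻¹ else 0 := by
        rw [Finset.sum_comm]
        refine Finset.sum_congr rfl (fun j _ => ?_)
        have h4 : ∀ a ∈ Xᶜ, wt r (insert a X) a i j =
            if r i a ≠ r j a then (if tr r X i = tr r X j then (m : ℝ)⁻¹ else 0) else 0 := by
          intro a ha
          rw [wt]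
          by_cases hd : r i a ≠ r j a ∧ tr r X i = tr r X j
          · rw [if_pos ((dir_iff r X a (Finset.mem_compl.mp ha) i j).mpr ⟨hd.1, hd.2, h0⟩),
              if_pos hd.1, if_pos hd.2, Finset.erase_insert (Finset.mem_compl.mp ha)]
          · rw [if_neg (fun h => hd ⟨((dir_iff r X a (Finset.mem_compl.mp ha) i j).mp h).1,
              ((dir_iff r X a (Finset.mem_compl.mp ha) i j).mp h).2.1⟩)]
            by_cases h5 : r i a ≠ r j a
            · rw [if_pos h5, if_neg (fun h => hd ⟨h5, h⟩)]
            · rw [if_neg h5]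
        rw [Finset.sum_congr rfl h4, ← Finset.sum_filter, Finset.sum_const, nsmul_eq_mul]
        split_ifs <;> simp
      have h4 : ∀ j, (if tr r X i = tr r X j ∧ i ≠ j then (g : ℝ) * (m : ℝ)⁻¹ else 0) ≤
          if tr r X i = tr r X j then
            (((Xᶜ : Finset υ).filter fun a => r i a ≠ r j a).card : ℝ) * (m : ℝ)⁻¹ else 0 := by
        intro j
        by_cases hij : tr r X i = tr r X j
        · rw [if_pos hij]
          by_cases hne : i ≠ j
          · rw [if_pos ⟨hij, hne⟩]
            apply mul_le_mul_of_nonneg_right _ (by positivity)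
            have h5 := h1 i j hne hij h0
            have h6 : (univ.filter fun a => r i a ≠ r j a) ⊆
                ((Xᶜ : Finset υ).filter fun a => r i a ≠ r j a) := by
              intro a ha
              rw [Finset.mem_filter] at ha ⊢
              refine ⟨Finset.mem_compl.mpr fun haX => ha.2 ?_, ha.2⟩
              exact (tr_eq_iff r X i j).mp hij a haX
            exact_mod_cast h5.trans (Finset.card_le_card h6)
          · rw [if_neg (fun h => hne h.2)]
            positivity
        · rw [if_neg (fun h => hij h.1), if_neg hij]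
      have h5 : (∑ j, if tr r X i = tr r X j ∧ i ≠ j then (g : ℝ) * (m : ℝ)⁻¹ else 0) =
          (g : ℝ) * (1 - (m : ℝ)⁻¹) := by
        rw [← Finset.sum_filter, Finset.sum_const, nsmul_eq_mul]
        have h6 : (univ.filter fun j => tr r X i = tr r X j ∧ i ≠ j).card = m - 1 := by
          have h7 : (univ.filter fun j => tr r X i = tr r X j ∧ i ≠ j) =
              (univ.filter fun j => tr r X j = tr r X i).erase i := by
            ext j
            simp only [Finset.mem_filter, Finset.mem_univ, true_and, Finset.mem_erase]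
            constructor
            · rintro ⟨h, h'⟩; exact ⟨fun e => h' e.symm, h.symm⟩
            · rintro ⟨h, h'⟩; exact ⟨h'.symm, fun e => h e.symm⟩
          rw [h7, Finset.card_erase_of_mem (by simp)]
          rfl
        rw [h6, Nat.cast_sub hmpos, Nat.cast_one]
        field_simp
      rw [Finset.sum_add_distrib, h3, ← h5]
      have h8 := Finset.sum_le_sum (fun j (_ : j ∈ (univ : Finset κ)) => h4 j)
      linarith
  have hsum := Finset.sum_le_sum (fun i (_ : i ∈ (univ : Finset κ)) => key i)
  rw [← Finset.mul_sum, Finset.sum_sub_distrib] at hsum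
  have h3 : (∑ i, if tr r X i = 0 then (0 : ℝ) else ((cnt r X (tr r X i) : ℕ) : ℝ)⁻¹) =
      (traces r X).card := by
    rw [Finset.sum_comp (s := (univ : Finset κ))
      (f := fun u => if u = 0 then (0 : ℝ) else ((cnt r X u : ℕ) : ℝ)⁻¹) (g := tr r X)]
    have h4 : ∀ u ∈ univ.image (tr r X), ((univ.filter fun i : κ => tr r X i = u).card •
        (if u = 0 then (0 : ℝ) else ((cnt r X u : ℕ) : ℝ)⁻¹)) = if u ≠ 0 then 1 else 0 := by
      intro u hu
      obtain ⟨i, -, rfl⟩ := Finset.mem_image.mp hu
      by_cases h0 : tr r X i = 0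
      · simp [h0]
      · have : (0 : ℝ) < cnt r X (tr r X i) := by exact_mod_cast cnt_pos r X i
        rw [if_neg h0, if_pos h0, nsmul_eq_mul]
        change ((cnt r X (tr r X i) : ℕ) : ℝ) * _ = 1
        field_simp
    rw [Finset.sum_congr rfl h4, Finset.sum_boole, traces]
    congr 2
    ext u
    simp [Finset.mem_erase, and_comm]
  rw [h3] at hsum
  have h4 : (∑ _i : κ, (1 : ℝ)) = Fintype.card κ := by simp
  rw [h4, Finset.sum_comm] at hsum
  refine hsum.trans (le_of_eq ?_)
  refine Finset.sum_congr rfl (fun a _ => ?_)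
  rw [Finset.sum_add_distrib]

/-- **Packing lemma** -/
theorem packing (r : κ → υ → F) (g k : ℕ) (D Λ : ℝ) (hD : 0 ≤ D) (hk : k ≤ Fintype.card υ)
    (h1 : ∀ (X : Finset υ) (i j), i ≠ j → tr r X i = tr r X j → tr r X i ≠ 0 →
      g ≤ (univ.filter fun a => r i a ≠ r j a).card)
    (h2 : ∀ i, g ≤ (univ.filter fun a => r i a ≠ 0).card)
    (h3 : ∀ X, ((traces r X).card : ℝ) ≤ Λ * X.card)
    (h4 : ∀ X, ∀ T ⊆ traces r X,
      (((T ×ˢ T).filter fun p => Adj X p.1 p.2).card : ℝ) ≤ D * T.card) :
    (g : ℝ) * (Fintype.card κ - Λ * k) * (k + 1) ≤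
      Fintype.card υ * ((D + 1) * Fintype.card κ) := by
  set y := Fintype.card υ with hy
  have hup : ∀ X ∈ (univ : Finset υ).powersetCard (k + 1),
      ∑ a ∈ X, ((∑ i, ∑ j, wt r X a i j) + ∑ i, zw r X a i) ≤ (D + 1) * Fintype.card κ := by
    intro X _
    rw [Finset.sum_add_distrib]
    have := upper r X D hD (h4 X)
    have := zupper r X
    linarith
  have hlo : ∀ X ∈ (univ : Finset υ).powersetCard k,
      (g : ℝ) * (Fintype.card κ - Λ * k) ≤
        ∑ a ∈ Xᶜ, ((∑ i, ∑ j, wt r (insert a X) a i j) + ∑ i, zw r (insert a X) a i) := by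
    intro X hX
    refine le_trans ?_ (lower r X g (h1 X) h2)
    have h5 := h3 X
    rw [(Finset.mem_powersetCard.mp hX).2] at h5
    apply mul_le_mul_of_nonneg_left _ (by positivity)
    linarith
  have hs := (Finset.sum_le_sum hlo).trans ((sum_powerset_swap k (fun X a =>
    (∑ i, ∑ j, wt r X a i j) + ∑ i, zw r X a i)).symm.le.trans (Finset.sum_le_sum hup))
  rw [Finset.sum_const, Finset.sum_const, Finset.card_powersetCard, Finset.card_powersetCard,
    nsmul_eq_mul, nsmul_eq_mul, Finset.card_univ, ← hy] at hs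
  have hch : (y.choose (k + 1) : ℝ) * (k + 1) = y.choose k * (y - k : ℕ) := by
    exact_mod_cast Nat.choose_succ_right_eq y k
  have hpos : (0 : ℝ) < y.choose k := by exact_mod_cast Nat.choose_pos hk
  have hyk : ((y - k : ℕ) : ℝ) ≤ y := by exact_mod_cast Nat.sub_le y k
  have hK : (0 : ℝ) ≤ (D + 1) * Fintype.card κ := by positivity
  have h6 : (y.choose k : ℝ) * ((g : ℝ) * (Fintype.card κ - Λ * k) * (k + 1)) ≤
      y.choose k * (y * ((D + 1) * Fintype.card κ)) := by
    calc (y.choose k : ℝ) * ((g : ℝ) * (Fintype.card κ - Λ * k) * (k + 1)) =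
        (y.choose k * ((g : ℝ) * (Fintype.card κ - Λ * k))) * (k + 1) := by ring
      _ ≤ (y.choose (k + 1) * ((D + 1) * Fintype.card κ)) * (k + 1) :=
        mul_le_mul_of_nonneg_right hs (by positivity)
      _ = (y.choose (k + 1) * (k + 1)) * ((D + 1) * Fintype.card κ) := by ring
      _ = (y.choose k * (y - k : ℕ)) * ((D + 1) * Fintype.card κ) := by rw [hch]
      _ ≤ (y.choose k * y) * ((D + 1) * Fintype.card κ) :=
        mul_le_mul_of_nonneg_right (mul_le_mul_of_nonneg_left hyk hpos.le) hK
      _ = _ := by ring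
  exact le_of_mul_le_mul_left h6 hpos

end Pool.Agent.Helper91.Cq
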