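import Pool.Agent.Helper91.Cq.Shifted
import Pool.Agent.Helper77.Cq.Contr
import Pool.Agent.Helper19.Cq.PairsCon

/-! # CQ-14: many triangles in a minor maximising the number of long pairs -/

set_option autoImplicit false

open Finset Module
open scoped Classical

namespace Pool.Agent.Helper35.Cq

theorem tri_ge {F : Type*} [Field F] [Fintype F] {V : Type*} [AddCommGroup V]
    [Module F V] {E : Finset V} (hE : Conic F E) (ρ : ℝ)
    (h1 : ((pairs F E E E).card : ℝ) = ρ * rk F E)
    (h2 : ∀ x ∈ E, ((pairs F (con F E x) (con F E x) (con F E x)).card : ℝ) ≤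
      ρ * rk F (con F E x)) :
    ρ * E.card ≤ 2 * Fintype.card F ^ 2 * (pairs F E E E).card + 3 * Fintype.card F * tri F E := by
  set q : ℕ := Fintype.card F with hq
  have hq1 : (1 : ℝ) ≤ q := by exact_mod_cast (Fintype.card_pos : 0 < Fintype.card F)
  have hnb : ∑ x ∈ E, (nb F E x).card = (pairs F E E E).card := by
    rw [pairs, Finset.card_filter, Finset.sum_product]
    refine Finset.sum_congr rfl (fun x _ => ?_)
    rw [nb, Finset.card_filter]
  have hx : ∀ x ∈ E, ρ ≤ 2 * (q : ℝ) ^ 2 * (nb F E x).card +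
      (pairs F E (nb F E x) (nb F E x)).card + 2 * (shifted F E x).card := by
    intro x hx
    have e1 : (rk F (con F E x) : ℝ) + 1 = rk F E := by exact_mod_cast rk_con hE hx
    have e2 : ((pairs F E E E).card : ℝ) ≤
        (pairs F (con F E x) (con F E x) (con F E x)).card + 2 * (q : ℝ) ^ 2 * (nb F E x).card
      + (pairs F E (nb F E x) (nb F E x)).card + 2 * (shifted F E x).card := by
      exact_mod_cast pairs_le_con hE hx
    have e3 := h2 x hx
    rw [h1, ← e1] at e2
    linarith
  have hsum := Finset.sum_le_sum hx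
  rw [Finset.sum_const, nsmul_eq_mul] at hsum
  have hsh : (∑ x ∈ E, ((shifted F E x).card : ℝ)) ≤ q * tri F E := by
    exact_mod_cast sum_shifted_le hE
  have hnb' : (∑ x ∈ E, ((nb F E x).card : ℝ)) = (pairs F E E E).card := by
    exact_mod_cast hnb
  have htri : (∑ x ∈ E, ((pairs F E (nb F E x) (nb F E x)).card : ℝ)) = tri F E := by
    rw [tri]; push_cast; rfl
  rw [Finset.sum_add_distrib, Finset.sum_add_distrib, ← Finset.mul_sum, ← Finset.mul_sum, hnb',
    htri] at hsum
  have ht0 : (0 : ℝ) ≤ tri F E := by positivity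
  nlinarith

end Pool.Agent.Helper35.Cq
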