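import Pool.Agent.Helper91.Cq.Cocircuit

/-!
# Critical exponent of matroids without `M(K_t)` minor and without `M*(K_t)` minor
-/

set_option autoImplicit false

open Finset Module
open scoped Classical

namespace Pool.Agent.Helper91.Cq

open Pool.Agent.Helper35.Cq

section

variable {F : Type*} [Field F] {V : Type*} [AddCommGroup V] [Module F V] {ι : Type*}

/-- the row space of the matroid on `ι` represented by the vectors `v e`: all vectors
`(φ (v e))_e`, `φ` a linear form -/
def rowSpace (F : Type*) [Field F] {V : Type*} [AddCommGroup V] [Module F V] {ι : Type*}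
    (v : ι → V) : Submodule F (ι → F) where
  carrier := {w | ∃ φ : Module.Dual F V, ∀ e, w e = φ (v e)}
  add_mem' := by
    rintro a b ⟨φ, h⟩ ⟨ψ, h'⟩
    exact ⟨φ + ψ, fun e => by rw [Pi.add_apply, h, h', LinearMap.add_apply]⟩
  zero_mem' := ⟨0, fun e => by simp⟩
  smul_mem' := by
    rintro c a ⟨φ, h⟩
    exact ⟨c • φ, fun e => by rw [Pi.smul_apply, h, LinearMap.smul_apply]⟩

/-- the vectors representing the dual matroid: the images of the unit vectors in the quotient by
the row space -/
noncomputable def dualVec (F : Type*) [Field F] {V : Type*} [AddCommGroup V] [Module F V]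
    {ι : Type*} (v : ι → V) (e : ι) : (ι → F) ⧸ rowSpace F v :=
  (rowSpace F v).mkQ (Pi.single e 1)

theorem hasClique_image {V' : Type*} [AddCommGroup V'] [Module F V'] {t : ℕ} (π : V →ₗ[F] V')
    (hπ : Function.Injective π) {E : Set V} (hc : HasClique F t E) :
    HasClique F t (π '' E) := by
  obtain ⟨C, hC, v, h1, h2⟩ := hc
  have hspan : ∀ x, π x ∈ Submodule.span F (π '' C) ↔ x ∈ Submodule.span F C := by
    intro x
    rw [← Submodule.map_span, Submodule.mem_map]
    constructor
    · rintro ⟨y, hy, hyx⟩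
      rwa [← hπ hyx]
    · intro h
      exact ⟨x, h, rfl⟩
  refine ⟨π '' C, Set.image_mono hC, fun i => π (v i), ?_, ?_⟩
  · intro α hα hmem
    apply h1 α hα
    rw [← hspan, map_sum]
    simpa using hmem
  · intro i j hij
    obtain ⟨e, he, c, hc, hec⟩ := h2 i j hij
    refine ⟨π e, ⟨e, he, rfl⟩, c, hc, ?_⟩
    rw [← map_sub, ← map_smul, ← map_sub, hspan]
    exact hec

/-- a linear form with prescribed values on a linearly independent family -/
theorem exists_dual {κ : Type*} {u : κ → V} (hu : LinearIndependent F u) (x : κ → F) :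
    ∃ φ : Module.Dual F V, ∀ k, φ (u k) = x k := by
  set b := Module.Basis.span hu with hb
  obtain ⟨φ, hφ⟩ := LinearMap.exists_extend (b.constr F x)
  refine ⟨φ, fun k => ?_⟩
  have h1 : b k = ⟨u k, Submodule.subset_span ⟨k, rfl⟩⟩ := Subtype.ext (by
    rw [hb, Module.Basis.span_apply])
  have h2 : φ (u k) = (b.constr F x) (b k) := by
    rw [← hφ, h1]
    rfl
  rw [h2, Module.Basis.constr_basis]

/-- deletion of elements: a clique minor of the dual of a restriction gives one of the dual -/
theorem hasClique_dual_restrict (v : ι → V) (p : ι → Prop) {t : ℕ} [Fintype ι]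
    (hc : HasClique F t (Set.range (dualVec F fun e : {x // p x} => v e))) :
    HasClique F t (Set.range (dualVec F v)) := by
  set v' : {x // p x} → V := fun e => v e with hv'
  set ρ : (ι → F) →ₗ[F] ({x // p x} → F) := LinearMap.funLeft F F Subtype.val with hρ
  have hle : rowSpace F v ≤ (rowSpace F v').comap ρ := by
    rintro w ⟨φ, h⟩
    exact ⟨φ, fun e => h e⟩
  set π := Submodule.mapQ (rowSpace F v) (rowSpace F v') ρ hle with hπ
  have hπs : ∀ w, π ((rowSpace F v).mkQ w) = (rowSpace F v').mkQ (ρ w) := fun w => rfl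
  have hin : ∀ (e : ι) (he : p e), ρ (Pi.single e 1) = Pi.single (⟨e, he⟩ : {x // p x}) 1 := by
    intro e he
    funext y
    rw [hρ, LinearMap.funLeft_apply]
    by_cases h : y = ⟨e, he⟩
    · subst h; simp
    · rw [Pi.single_eq_of_ne h, Pi.single_eq_of_ne]
      exact fun h' => h (Subtype.ext h')
  have hout : ∀ (e : ι), ¬ p e → ρ (Pi.single e 1) = 0 := by
    intro e he
    funext y
    rw [hρ, LinearMap.funLeft_apply, Pi.single_eq_of_ne]
    · rfl
    · rintro h
      exact he (h ▸ y.2)
  apply hasClique_of_map π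
  · intro x hx
    obtain ⟨w, rfl⟩ := Submodule.mkQ_surjective _ x
    rw [hπs, Submodule.mkQ_apply, Submodule.Quotient.mk_eq_zero] at hx
    obtain ⟨φ, hφ⟩ := hx
    set w' : ι → F := fun e => w e - φ (v e) with hw'
    have h1 : (rowSpace F v).mkQ w = (rowSpace F v).mkQ w' := by
      rw [Submodule.mkQ_apply, Submodule.mkQ_apply, Submodule.Quotient.eq]
      exact ⟨φ, fun e => by simp [hw']⟩
    have h2 : w' = ∑ e ∈ univ.filter (fun e => ¬ p e), w' e • (Pi.single e (1 : F) : ι → F) := by
      funext z
      rw [Finset.sum_apply]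
      by_cases hz : p z
      · have h3 : w' z = 0 := by
          have := hφ ⟨z, hz⟩
          rw [hρ, LinearMap.funLeft_apply] at this
          rw [hw']
          simp only
          rw [this]
          exact sub_self _
        rw [h3]
        symm
        apply Finset.sum_eq_zero
        intro y hy
        rw [Pi.smul_apply, Pi.single_eq_of_ne, smul_zero]
        rintro rfl
        exact (Finset.mem_filter.mp hy).2 hz
      · rw [Finset.sum_eq_single_of_mem z (Finset.mem_filter.mpr ⟨Finset.mem_univ _, hz⟩)]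
        · simp
        · intro y _ hyz
          rw [Pi.smul_apply, Pi.single_eq_of_ne (Ne.symm hyz), smul_zero]
    rw [h1, h2, map_sum]
    refine Submodule.sum_mem _ fun y hy => ?_
    rw [map_smul]
    refine Submodule.smul_mem _ _ (Submodule.subset_span ⟨⟨y, rfl⟩, ?_⟩)
    rw [hπs, hout y (Finset.mem_filter.mp hy).2, map_zero]
  · refine hasClique_mono ?_ hc
    rintro _ ⟨⟨e, he⟩, rfl⟩
    refine ⟨dualVec F v e, ⟨e, rfl⟩, ?_⟩
    rw [dualVec, hπs, hin e he, dualVec]
    refine congrArg _ ?_
    funext z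
    simp only [Pi.single_apply]
    split_ifs <;> rfl

end

section main

variable {F : Type*} [Field F] [Fintype F]

/-- the bound for the critical exponent -/
def expo (t : ℕ) : ℕ := 21 * t ^ 2 + 229 * t + 137

theorem bound_lt (t : ℕ) : 4 * Lam F t ^ 2 * (Dee F t + 1) + 2 <
    (Fintype.card F : ℝ) ^ expo t := by
  set q : ℝ := (Fintype.card F : ℝ) with hq
  have hq2 : (2 : ℝ) ≤ q := by
    rw [hq]
    exact_mod_cast (Fintype.one_lt_card : 1 < Fintype.card F)
  have hq1 : (1 : ℝ) ≤ q := by linarith
  set L := 7 * t ^ 2 + 76 * t + 42 with hL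
  have hΛ : Lam F t = q ^ L := rfl
  have hΛ1 : 1 ≤ q ^ L := one_le_pow₀ hq1
  have h2q : ∀ m : ℕ, (2 : ℝ) ^ m ≤ q ^ m := fun m => pow_le_pow_left₀ (by norm_num) hq2 m
  have hD : Dee F t + 1 ≤ q ^ (t + 8 + L) := by
    rw [Dee, hΛ, ← hq]
    have h1 : (2 : ℝ) ^ (t + 6) * q * q ^ L ≤ q ^ (t + 6) * q * q ^ L :=
      mul_le_mul_of_nonneg_right (mul_le_mul_of_nonneg_right (h2q _) (by positivity))
        (by positivity)
    have h2 : q ^ (t + 6) * q * q ^ L = q ^ (t + 7 + L) := by
      rw [← pow_succ, ← pow_add]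
    have h3 : (1 : ℝ) ≤ q ^ (t + 7 + L) := one_le_pow₀ hq1
    have h4 : q ^ (t + 8 + L) = q ^ (t + 7 + L) * q := by
      rw [← pow_succ]; congr 1; ring
    rw [h4]
    nlinarith
  have h5 : 4 * (q ^ L) ^ 2 * (Dee F t + 1) ≤ q ^ (t + 10 + 3 * L) := by
    have h6 : (4 : ℝ) ≤ q ^ 2 := by
      have := h2q 2
      norm_num at this
      exact this
    calc 4 * (q ^ L) ^ 2 * (Dee F t + 1) ≤ q ^ 2 * (q ^ L) ^ 2 * q ^ (t + 8 + L) := by
          apply mul_le_mul _ hD _ (by positivity)
          · exact mul_le_mul_of_nonneg_right h6 (by positivity)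
          · rw [Dee, Lam]; positivity
      _ = q ^ (t + 10 + 3 * L) := by rw [← pow_mul, ← pow_add, ← pow_add]; congr 1; ring
  have h6 : (q : ℝ) ^ expo t = q ^ (t + 10 + 3 * L) * q := by
    rw [← pow_succ, expo, hL]; congr 1; ring
  rw [hΛ, h6]
  have h7 : (4 : ℝ) ≤ q ^ (t + 10 + 3 * L) := by
    calc (4 : ℝ) = 2 ^ 2 := by norm_num
      _ ≤ q ^ 2 := h2q 2
      _ ≤ q ^ (t + 10 + 3 * L) := pow_le_pow_right₀ hq1 (by omega)
  nlinarith

/-- a nonzero linear form vanishing on almost all elements -/
theorem exists_small_form {V : Type*} [AddCommGroup V] [Module F V] {ι : Type*} [Fintype ι]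
    [Nonempty ι] (t : ℕ) (v : ι → V) (h0 : ∀ e, v e ≠ 0)
    (hsimple : ∀ e e' (c : F), v e = c • v e' → e = e')
    (h1 : ¬ HasClique F t (Set.range v)) (h2 : ¬ HasClique F t (Set.range (dualVec F v))) :
    ∃ ψ : Module.Dual F V, (∃ e, ψ (v e) ≠ 0) ∧
      ((univ.filter fun e => ψ (v e) ≠ 0).card : ℝ) ≤ 4 * Lam F t ^ 2 * (Dee F t + 1) + 2 := by
  obtain ⟨κ, a, ha, hspan, hli⟩ := exists_linearIndependent' F v
  have : Fintype κ := Fintype.ofInjective a ha
  have hex : ∀ e, ∃ c : κ → F, ∑ k, c k • v (a k) = v e := by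
    intro e
    have : v e ∈ Submodule.span F (Set.range (v ∘ a)) := by
      rw [hspan]
      exact Submodule.subset_span ⟨e, rfl⟩
    exact (Submodule.mem_span_range_iff_exists_fun F).mp this
  choose c hc using hex
  have hκ : Nonempty κ := by
    by_contra hemp
    rw [not_nonempty_iff] at hemp
    obtain ⟨e⟩ := (inferInstance : Nonempty ι)
    apply h0 e
    rw [← hc e, Finset.univ_eq_empty, Finset.sum_empty]
  set υ := {e : ι // e ∉ Set.range a} with hυ
  set R : κ → υ → F := fun k y => c y.1 k with hR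
  -- primal
  set P : (κ → F) →ₗ[F] V := Fintype.linearCombination F (v ∘ a) with hP
  have hPapp : ∀ x, P x = ∑ k, x k • v (a k) := fun x => by
    rw [hP, Fintype.linearCombination_apply]; rfl
  have hPinj : Function.Injective P := by
    rw [← LinearMap.ker_eq_bot, LinearMap.ker_eq_bot']
    intro x hx
    rw [hPapp] at hx
    funext k
    exact Fintype.linearIndependent_iff.mp hli x hx k
  have hPcol : ∀ y : υ, P (fun k => R k y) = v y.1 := fun y => by
    rw [hPapp]; exact hc y.1
  have hc1 : ¬ HasClique F t (colSet R) := by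
    intro hcl
    apply h1
    refine hasClique_mono ?_ (hasClique_image P hPinj hcl)
    rintro _ ⟨w, ⟨y, rfl⟩ | ⟨k, rfl⟩, rfl⟩
    · exact ⟨y.1, (hPcol y).symm⟩
    · refine ⟨a k, ?_⟩
      rw [hPapp, Finset.sum_eq_single k]
      · rw [Pi.single_eq_same, one_smul]
      · intro k' _ hk'
        rw [Pi.single_eq_of_ne hk', zero_smul]
      · intro h; exact absurd (Finset.mem_univ _) h
  -- dual
  set T : (ι → F) →ₗ[F] (υ → F) :=
    { toFun := fun w y => w y.1 - ∑ k, w (a k) * R k y
      map_add' := fun w w' => by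
        funext y
        simp only [Pi.add_apply, add_mul, Finset.sum_add_distrib]
        ring
      map_smul' := fun s w => by
        funext y
        simp only [Pi.smul_apply, smul_eq_mul, RingHom.id_apply, mul_sub, Finset.mul_sum,
          mul_assoc] } with hT
  have hTapp : ∀ w y, T w y = w y.1 - ∑ k, w (a k) * R k y := fun w y => rfl
  have hTker : ∀ w, T w = 0 ↔ w ∈ rowSpace F v := by
    intro w
    constructor
    · intro hw
      obtain ⟨φ, hφ⟩ := exists_dual hli (fun k => w (a k))
      refine ⟨φ, fun e => ?_⟩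
      have h3 : φ (v e) = ∑ k, c e k * w (a k) := by
        rw [← hc e, map_sum]
        refine Finset.sum_congr rfl (fun k _ => ?_)
        rw [map_smul, smul_eq_mul]
        congr 1
        exact hφ k
      rw [h3]
      by_cases he : e ∈ Set.range a
      · obtain ⟨k, rfl⟩ := he
        have h4 : c (a k) = Pi.single k 1 := by
          apply hPinj
          rw [hPapp, hPapp, hc (a k), Finset.sum_eq_single k]
          · rw [Pi.single_eq_same, one_smul]
          · intro k' _ hk'
            rw [Pi.single_eq_of_ne hk', zero_smul]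
          · intro h; exact absurd (Finset.mem_univ _) h
        rw [h4, Finset.sum_eq_single k]
        · rw [Pi.single_eq_same, one_mul]
        · intro k' _ hk'
          rw [Pi.single_eq_of_ne hk', zero_mul]
        · intro h; exact absurd (Finset.mem_univ _) h
      · have h5 := congrFun hw ⟨e, he⟩
        rw [hTapp] at h5
        have h6 : w e = ∑ k, w (a k) * R k ⟨e, he⟩ := sub_eq_zero.mp h5
        rw [h6]
        exact Finset.sum_congr rfl (fun k _ => mul_comm _ _)
    · rintro ⟨φ, hφ⟩
      funext y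
      rw [hTapp, hφ]
      have h3 : φ (v y.1) = ∑ k, w (a k) * R k y := by
        rw [← hc y.1, map_sum]
        refine Finset.sum_congr rfl (fun k _ => ?_)
        rw [map_smul, smul_eq_mul, hφ, mul_comm]
      rw [h3, sub_self]
      rfl
  set π : ((ι → F) ⧸ rowSpace F v) →ₗ[F] (υ → F) := (rowSpace F v).liftQ T
    (fun w hw => (hTker w).mpr hw) with hπ
  have hπs : ∀ w, π ((rowSpace F v).mkQ w) = T w := fun w => rfl
  have hT1 : ∀ y : υ, T (Pi.single y.1 1) = Pi.single y 1 := by
    intro y
    funext z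
    rw [hTapp, Finset.sum_eq_zero, sub_zero]
    · by_cases hzy : z = y
      · subst hzy; simp
      · rw [Pi.single_eq_of_ne hzy, Pi.single_eq_of_ne (fun h => hzy (Subtype.ext h))]
    · intro k _
      rw [Pi.single_eq_of_ne, zero_mul]
      intro h
      exact y.2 ⟨k, h⟩
  have hT2 : ∀ k : κ, T (Pi.single (a k) 1) = -R k := by
    intro k
    funext z
    rw [hTapp, Finset.sum_eq_single k, Pi.single_eq_same, one_mul, Pi.single_eq_of_ne, zero_sub]
    · rfl
    · intro h
      exact z.2 ⟨k, h.symm⟩
    · intro k' _ hk'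
      rw [Pi.single_eq_of_ne (fun h => hk' (ha h)), zero_mul]
    · intro h; exact absurd (Finset.mem_univ _) h
  have hc2 : ¬ HasClique F t (rowSet R) := by
    intro hcl
    apply h2
    apply hasClique_of_map π
    · intro x hx
      obtain ⟨w, rfl⟩ := Submodule.mkQ_surjective _ x
      rw [hπs, hTker] at hx
      have : (rowSpace F v).mkQ w = 0 := by
        rw [Submodule.mkQ_apply, Submodule.Quotient.mk_eq_zero]
        exact hx
      rw [this]
      exact Submodule.zero_mem _
    · apply hasClique_of_cone _ hcl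
      rintro x (⟨k, rfl⟩ | ⟨y, rfl⟩)
      · refine ⟨π (dualVec F v (a k)), ⟨_, ⟨a k, rfl⟩, rfl⟩, -1, by simp, ?_⟩
        rw [dualVec, hπs, hT2]
        simp
      · refine ⟨π (dualVec F v y.1), ⟨_, ⟨y.1, rfl⟩, rfl⟩, 1, one_ne_zero, ?_⟩
        rw [dualVec, hπs, hT1, one_smul]
        funext z
        simp only [Pi.single_apply]
        split_ifs <;> rfl
  -- the small cocircuit
  set B : ℝ := 4 * Lam F t ^ 2 * (Dee F t + 1) with hB
  have hB0 : 0 ≤ B := by rw [hB, Dee, Lam]; positivity
  set g : ℕ := ⌊B⌋₊ + 1 with hg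
  have hgB : B < g := by
    rw [hg]
    push_cast
    exact Nat.lt_floor_add_one B
  have hgB' : (g : ℝ) ≤ B + 1 := by
    rw [hg]
    push_cast
    linarith [Nat.floor_le hB0]
  have hnot : ¬ ∀ x : κ → F, x ≠ 0 → g + 2 ≤ (univ.filter fun b => x b ≠ 0).card +
      (univ.filter fun y => ∑ b, x b * R b y ≠ 0).card := by
    intro hw
    have := small_cocircuit R t g
      (fun y h => h0 y.1 (by rw [← hPcol y, h, map_zero]))
      (fun y y' s h => Subtype.ext (hsimple y.1 y'.1 s (by
        rw [← hPcol y, ← hPcol y', h, map_smul]))) hc1 hc2 hw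
    linarith
  push Not at hnot
  obtain ⟨x, hx0, hx⟩ := hnot
  obtain ⟨ψ, hψ⟩ := exists_dual hli x
  have hψe : ∀ y : υ, ψ (v y.1) = ∑ k, x k * R k y := by
    intro y
    rw [← hc y.1, map_sum]
    refine Finset.sum_congr rfl (fun k _ => ?_)
    rw [map_smul, smul_eq_mul, mul_comm]
    congr 1
    exact hψ k
  refine ⟨ψ, ?_, ?_⟩
  · by_contra hcon
    push Not at hcon
    apply hx0
    funext k
    rw [← hψ k]
    exact hcon (a k)
  · have h3 : (univ.filter fun e => ψ (v e) ≠ 0) ⊆
        (univ.filter fun k => x k ≠ 0).image a ∪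
          (univ.filter fun y => ∑ b, x b * R b y ≠ 0).image Subtype.val := by
      intro e he
      rw [Finset.mem_filter] at he
      rw [Finset.mem_union, Finset.mem_image, Finset.mem_image]
      by_cases hea : e ∈ Set.range a
      · obtain ⟨k, rfl⟩ := hea
        left
        refine ⟨k, Finset.mem_filter.mpr ⟨Finset.mem_univ _, ?_⟩, rfl⟩
        have h4 := he.2
        rw [show ψ (v (a k)) = x k from hψ k] at h4
        exact h4
      · right
        refine ⟨⟨e, hea⟩, Finset.mem_filter.mpr ⟨Finset.mem_univ _, ?_⟩, rfl⟩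
        rw [← hψe ⟨e, hea⟩]
        exact he.2
    have h4 : (univ.filter fun e => ψ (v e) ≠ 0).card ≤ g + 1 := by
      refine (Finset.card_le_card h3).trans ((Finset.card_union_le _ _).trans ?_)
      refine (Nat.add_le_add Finset.card_image_le Finset.card_image_le).trans ?_
      omega
    have h5 : ((univ.filter fun e => ψ (v e) ≠ 0).card : ℝ) ≤ g + 1 := by exact_mod_cast h4
    linarith

/-- **Main theorem**: uniform bound for the critical exponent when both `M(K_t)` and `M*(K_t)` are
excluded. -/
theorem two_sided {V : Type*} [AddCommGroup V] [Module F V] (t : ℕ) :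
    ∀ (n : ℕ) {ι : Type*} [Fintype ι] (v : ι → V), Fintype.card ι = n → (∀ e, v e ≠ 0) →
      ¬ HasClique F t (Set.range v) → ¬ HasClique F t (Set.range (dualVec F v)) →
      ∃ φ : V →ₗ[F] (Fin (expo t) → F), ∀ e, φ (v e) ≠ 0 := by
  intro n
  induction n using Nat.strong_induction_on with
  | _ n ih =>
    intro ι _ v hn h0 h1 h2
    rcases isEmpty_or_nonempty ι with hemp | hne
    · exact ⟨0, fun e => (hemp.false e).elim⟩
    by_cases hsimple : ∀ e e' (c : F), v e = c • v e' → e = e'
    · obtain ⟨ψ, ⟨e0, he0⟩, hcard⟩ := exists_small_form t v h0 hsimple h1 h2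
      -- restrict to the zeros of ψ
      obtain ⟨φ', hφ'⟩ := ih (Fintype.card {e // ψ (v e) = 0}) (by
          rw [← hn]
          exact Fintype.card_subtype_lt (p := fun e => ψ (v e) = 0) (x := e0) he0)
        (fun e : {e // ψ (v e) = 0} => v e) rfl (fun e => h0 e)
        (fun hc => h1 (hasClique_mono (by rintro _ ⟨e, rfl⟩; exact ⟨e, rfl⟩) hc))
        (fun hc => h2 (hasClique_dual_restrict v (fun e => ψ (v e) = 0) hc))
      -- choose the vector
      obtain ⟨lam, hlam⟩ : ∃ lam : Fin (expo t) → F,
          lam ∉ (univ.filter fun e => ψ (v e) ≠ 0).image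
            (fun e => -((ψ (v e))⁻¹ • φ' (v e))) := by
        by_contra hcon
        push Not at hcon
        have h3 : (univ : Finset (Fin (expo t) → F)) ⊆
            (univ.filter fun e => ψ (v e) ≠ 0).image
            (fun e => -((ψ (v e))⁻¹ • φ' (v e))) := fun x _ => hcon x
        have h4 := (Finset.card_le_card h3).trans Finset.card_image_le
        rw [Finset.card_univ, Fintype.card_fun, Fintype.card_fin] at h4
        have h5 : ((Fintype.card F : ℝ)) ^ expo t ≤
            ((univ.filter fun e => ψ (v e) ≠ 0).card : ℝ) := by exact_mod_cast h4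
        have h6 := bound_lt (F := F) t
        linarith
      refine ⟨φ' + (LinearMap.toSpanSingleton F (Fin (expo t) → F) lam).comp ψ, fun e => ?_⟩
      rw [LinearMap.add_apply, LinearMap.comp_apply, LinearMap.toSpanSingleton_apply]
      by_cases he : ψ (v e) = 0
      · rw [he, zero_smul, add_zero]
        exact hφ' ⟨e, he⟩
      · intro hz
        apply hlam
        rw [Finset.mem_image]
        refine ⟨e, Finset.mem_filter.mpr ⟨Finset.mem_univ _, he⟩, ?_⟩
        have h3 : φ' (v e) = -(ψ (v e) • lam) := eq_neg_of_add_eq_zero_left hz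
        rw [h3, smul_neg, neg_neg, smul_smul, inv_mul_cancel₀ he, one_smul]
    · -- remove a parallel element
      push Not at hsimple
      obtain ⟨e, e', c, hcc, hee⟩ := hsimple
      obtain ⟨φ, hφ⟩ := ih (Fintype.card {x // x ≠ e}) (by
          rw [← hn]
          exact Fintype.card_subtype_lt (p := fun x => x ≠ e) (x := e) (by simp))
        (fun x : {x // x ≠ e} => v x) rfl (fun x => h0 x)
        (fun hc => h1 (hasClique_mono (by rintro _ ⟨x, rfl⟩; exact ⟨x, rfl⟩) hc))
        (fun hc => h2 (hasClique_dual_restrict v (fun x => x ≠ e) hc))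
      refine ⟨φ, fun x => ?_⟩
      by_cases hx : x = e
      · subst hx
        rw [hcc, map_smul]
        refine smul_ne_zero ?_ (hφ ⟨e', Ne.symm hee⟩)
        rintro rfl
        exact h0 x (by rw [hcc, zero_smul])
      · exact hφ ⟨x, hx⟩

end main

end Pool.Agent.Helper91.Cq
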